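import Mathlib
import Pool.Agent.Y826.ZL.Defs

/-! Project Y826/ZG (helper826): linear forms and any modulus `W` (not only squarefree).  Definitions. -/

open Finset Filter

namespace Pool.Agent.Y826.ZG

open Pool.Agent.Y826.Z (Pr ind smp rop sm ro D0 tau Sz szg GroupOK GoodT)
open Pool.Agent.Y826.ZL (Cd dl)

/-- the radical (`0` for `0`) -/
def rd (W : ℕ) : ℕ := if W = 0 then 0 else ∏ p ∈ W.primeFactors, p

theorem rd_zero : rd 0 = 0 := if_pos rfl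

theorem rd_of_ne {W : ℕ} (hW : W ≠ 0) : rd W = ∏ p ∈ W.primeFactors, p := if_neg hW

theorem rd_pos {W : ℕ} (hW : 0 < W) : 0 < rd W := by
  rw [rd_of_ne hW.ne']
  exact Nat.pos_of_ne_zero (Finset.prod_ne_zero_iff.2 fun _ hp => (Nat.prime_of_mem_primeFactors hp).ne_zero)

theorem pos_of_rd {W : ℕ} (h : 0 < rd W) : 0 < W := by
  rcases Nat.eq_zero_or_pos W with rfl | hW
  · rw [rd_zero] at h; exact h
  · exact hW

theorem rd_dvd (W : ℕ) : rd W ∣ W := by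
  rcases eq_or_ne W 0 with rfl | hW
  · exact dvd_zero _
  · rw [rd_of_ne hW]; exact Nat.prod_primeFactors_dvd W

theorem prime_dvd_rd {W p : ℕ} (hp : p.Prime) : p ∣ rd W ↔ p ∣ W := by
  rcases eq_or_ne W 0 with rfl | hW
  · rw [rd_zero]
  · constructor
    · exact fun h => h.trans (rd_dvd W)
    · intro h
      rw [rd_of_ne hW]
      exact Finset.dvd_prod_of_mem (fun p => p) (Nat.mem_primeFactors.2 ⟨hp, h, hW⟩)

theorem rd_cop {W n : ℕ} : (rd W).Coprime n ↔ W.Coprime n := by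
  constructor
  · intro h
    refine Nat.coprime_of_dvd ?_
    intro p hp h1 h2
    exact hp.one_lt.ne' (Nat.dvd_one.1 (h ▸ Nat.dvd_gcd ((prime_dvd_rd hp).2 h1) h2))
  · exact fun h => h.coprime_dvd_left (rd_dvd W)

theorem rd_mul_cop {W a n : ℕ} : (rd W * a).Coprime n ↔ (W * a).Coprime n := by
  rw [Nat.coprime_mul_iff_left, Nat.coprime_mul_iff_left, rd_cop]

/-- from squarefreeness to coprimality with the whole modulus -/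
theorem cop_of_sqf {W n : ℕ} (h : Squarefree (rd W * n)) : W.Coprime n :=
  rd_cop.1 (Nat.coprime_of_squarefree_mul h)

/-- from squarefreeness to coprimality with the whole modulus -/
theorem cop_of_sqf2 {W a n : ℕ} (h : Squarefree (rd W * a * n)) : (W * a).Coprime n :=
  rd_mul_cop.1 (Nat.coprime_of_squarefree_mul h)

/-- from squarefreeness to coprimality with the whole modulus -/
theorem cop_of_sqf3 {W a b n : ℕ} (h : Squarefree (rd W * a * b * n)) : (W * a * b).Coprime n := by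
  rw [mul_assoc W a b]
  rw [mul_assoc (rd W) a b] at h
  exact cop_of_sqf2 h

theorem rd_sqf {W : ℕ} (hW : 0 < W) : Squarefree (rd W) := by
  rw [Nat.squarefree_iff_prime_squarefree]
  intro p hp hd
  have h2 : rd W = p * ∏ q ∈ W.primeFactors.erase p, q := by
    have hm : p ∈ W.primeFactors :=
      Nat.mem_primeFactors.2 ⟨hp, (prime_dvd_rd hp).1 (dvd_of_mul_left_dvd hd), hW.ne'⟩
    rw [rd_of_ne hW.ne']
    exact (Finset.mul_prod_erase _ (fun q => q) hm).symm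
  rw [h2] at hd
  have h3 : p ∣ ∏ q ∈ W.primeFactors.erase p, q := Nat.dvd_of_mul_dvd_mul_left hp.pos hd
  obtain ⟨q, hq, hpq⟩ := (Prime.dvd_finsetProd_iff hp.prime _).1 h3
  have hq1 := Finset.mem_erase.1 hq
  exact hq1.1 ((Nat.prime_dvd_prime_iff_eq hp (Nat.prime_of_mem_primeFactors hq1.2)).1 hpq).symm

theorem rd_eq {W : ℕ} (h : Squarefree W) : rd W = W := by
  rw [rd_of_ne h.ne_zero]; exact Nat.prod_primeFactors_of_squarefree h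

theorem sqf_iff {W n : ℕ} (hW : 0 < W) : Squarefree (rd W * n) ↔ W.Coprime n ∧ Squarefree n := by
  rw [Nat.squarefree_mul_iff, rd_cop]
  constructor
  · exact fun h => ⟨h.1, h.2.2⟩
  · exact fun h => ⟨h.1, rd_sqf hW, h.2⟩

/-- the fixed data: linear forms `h` (slope and constant term), the class `b` mod `W`; `W` need not be squarefree -/
structure Hyp {K : ℕ} (h : Fin K → ℤ × ℤ) (W b : ℕ) : Prop where
  wpos : 0 < W
  bW : b.Coprime W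
  h0 : ∀ p : ℕ, p.Prime → ¬ p ∣ W → ∀ j, ¬ (p : ℤ) ∣ (h j).1
  h1 : ∀ p : ℕ, p.Prime → ¬ p ∣ W → ∀ j, ¬ (p : ℤ) ∣ (h j).2

/-- bilinear forms -/
def S_TII : Prop := ∀ (K : ℕ) (h : Fin K → ℤ × ℤ) (W b : ℕ), Hyp h W b → ∀ δ : ℝ, 0 < δ → ∃ ε : ℝ, 0 < ε ∧
  ∀ A : ℕ, ∃ B0 : ℕ, ∀ B : ℕ, B0 ≤ B →
  ∀ᶠ X : ℝ in atTop, ∀ (M N : ℕ) (Q : Fin K → ℝ) (g : Fin K → Fin 5), (∀ j, 0 < Q j) →
    Sz δ X M N (szg Q g 0) (szg Q g 1) (szg Q g 2) (szg Q g 3) (szg Q g 4) →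
  ∀ S : Finset (Fin K → ℕ), (∀ q ∈ S, Squarefree (rd W * Pr q) ∧ (∀ j, Q j < q j ∧ (q j : ℝ) ≤ 2 * Q j) ∧
      (Pr (sm (D0 X B) q) : ℝ) ≤ X ^ ε) →
  ∀ c : (Fin K → ℕ) → ℝ, (∀ q, |c q| ≤ 1) →
  ∀ α β : ℕ → ℝ, (∀ m ∈ Ioc M (2 * M), |α m| ≤ tau m * Real.log X) →
    (∀ n ∈ Ioc N (2 * N), |β n| ≤ tau n * Real.log X) →
    |∑ q ∈ S, c q * ∑ m ∈ Ioc M (2 * M), ∑ n ∈ Ioc N (2 * N), α m * β n * dl h W b (D0 X B) q (m * n)| ≤
      X / (Real.log X) ^ A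

/-- von Mangoldt function -/
def S_LAM : Prop := ∀ (K : ℕ) (h : Fin K → ℤ × ℤ) (W b : ℕ), Hyp h W b → ∀ δ : ℝ, 0 < δ → ∃ ε : ℝ, 0 < ε ∧
  ∀ A : ℕ, ∃ B0 : ℕ, ∀ B : ℕ, B0 ≤ B →
  ∀ᶠ X : ℝ in atTop, ∀ (Q : Fin K → ℝ), (∀ j, 0 < Q j) → ∏ j, Q j ≤ X ^ (11 / 20 : ℝ) → GroupOK δ X Q →
  ∀ S : Finset (Fin K → ℕ), (∀ q ∈ S, Squarefree (rd W * Pr q) ∧ (∀ j, Q j < q j ∧ (q j : ℝ) ≤ 2 * Q j) ∧
      (Pr (sm (D0 X B) q) : ℝ) ≤ X ^ ε) →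
  ∀ c : (Fin K → ℕ) → ℝ, (∀ q, |c q| ≤ 1) →
    |∑ q ∈ S, c q * ∑ n ∈ Icc 1 ⌊3 * X⌋₊, H378R2.Phi (n / X) * ArithmeticFunction.vonMangoldt n *
      dl h W b (D0 X B) q n| ≤ X / (Real.log X) ^ A

/-- the residue classes of the tuples -/
def Cls {K : ℕ} (h : Fin K → ℤ × ℤ) (W b : ℕ) (bq : (Fin K → ℕ) → ℕ) : Prop :=
  ∀ q : Fin K → ℕ, Squarefree (rd W * Pr q) → ∀ n : ℕ, (n ≡ bq q [MOD (W * Pr q)] ↔ n ≡ b [MOD W] ∧ Cd h q n)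

/-- one dyadic box -/
def S_Z : Prop := ∀ (K : ℕ) (h : Fin K → ℤ × ℤ) (W b : ℕ), Hyp h W b → ∀ δ : ℝ, 0 < δ → ∀ A : ℕ,
  ∀ᶠ X : ℝ in atTop, ∀ (Q : Fin K → ℝ), (∀ j, 0 < Q j) → ∏ j, Q j ≤ X ^ (11 / 20 : ℝ) → GroupOK δ X Q →
  ∀ bq, Cls h W b bq →
  ∀ S : Finset (Fin K → ℕ), (∀ q ∈ S, Squarefree (rd W * Pr q) ∧ (∀ j, Q j < q j ∧ (q j : ℝ) ≤ 2 * Q j)) →
    ∑ q ∈ S, |H378R2.EPhi X (W * Pr q) (bq q)| ≤ X / (Real.log X) ^ A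

open Classical in
/-- all the tuples up to given sizes, with divisor weights -/
def S_ZZ : Prop := ∀ (K : ℕ) (h : Fin K → ℤ × ℤ) (W b : ℕ), Hyp h W b → ∀ (t : Fin K → ℝ), (∀ j, 0 ≤ t j) →
  ∑ j, t j ≤ 27 / 50 → (∃ δ : ℝ, 0 < δ ∧ GoodT δ t) → ∀ bq, Cls h W b bq → ∀ A C : ℕ,
  ∀ᶠ X : ℝ in atTop,
    ∑ q ∈ (Fintype.piFinset (fun j => Icc 1 ⌊X ^ (t j)⌋₊)).filter (fun q => Squarefree (rd W * Pr q)),
      tau (Pr q) ^ C * |H378R2.EPhi X (W * Pr q) (bq q)| ≤ X / (Real.log X) ^ A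

end Pool.Agent.Y826.ZG
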