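import Mathlib
import Pool.Agent.Y826.ZG.Defs

/-! Project Y826/ZG: from the bilinear forms to the von Mangoldt function. -/

open Finset Filter

namespace Pool.Agent.Y826.ZG

open Pool.Agent.Y826.Z (Pr ind smp rop sm ro D0 tau Sz szg GroupOK GoodT)
open Pool.Agent.Y826.ZL (Cd dl)

/-- sums with one long smooth variable; `g l = 1` or `g l = log l` -/
def S_TI : Prop := ∀ (K : ℕ) (h : Fin K → ℤ × ℤ) (W b : ℕ), Hyp h W b → ∀ B : ℕ,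
  ∀ᶠ X : ℝ in atTop, ∀ S : Finset (Fin K → ℕ),
    (∀ q ∈ S, Squarefree (rd W * Pr q) ∧ (Pr q : ℝ) ≤ X ^ (14 / 25 : ℝ)) →
  ∀ c : (Fin K → ℕ) → ℝ, (∀ q, |c q| ≤ 1) → ∀ γ : ℕ → ℝ, (∀ d, |γ d| ≤ tau d * Real.log X) →
  ∀ g : ℕ → ℝ, ((∀ l, g l = 1) ∨ ∀ l, g l = Real.log l) → ∀ D1 : ℕ, (D1 : ℝ) ≤ 4 * X ^ (1 / 3 : ℝ) →
    |∑ q ∈ S, c q * ∑ d ∈ Icc 1 D1, γ d * ∑ l ∈ Icc 1 ⌊3 * X⌋₊,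
      g l * H378R2.Phi (((d * l : ℕ) : ℝ) / X) * dl h W b (D0 X B) q (d * l)| ≤ X ^ (99 / 100 : ℝ)

/-- bilinear sums with the weight `Phi`, both variables `> X ^ (1/3)` -/
def S_BX : Prop := ∀ (K : ℕ) (h : Fin K → ℤ × ℤ) (W b : ℕ), Hyp h W b → ∀ δ : ℝ, 0 < δ → ∃ ε : ℝ, 0 < ε ∧
  ∀ A : ℕ, ∃ B0 : ℕ, ∀ B : ℕ, B0 ≤ B →
  ∀ᶠ X : ℝ in atTop, ∀ (Q : Fin K → ℝ), (∀ j, 0 < Q j) → GroupOK δ X Q →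
  ∀ S : Finset (Fin K → ℕ), (∀ q ∈ S, Squarefree (rd W * Pr q) ∧ (∀ j, Q j < q j ∧ (q j : ℝ) ≤ 2 * Q j) ∧
      (Pr (sm (D0 X B) q) : ℝ) ≤ X ^ ε) →
  ∀ c : (Fin K → ℕ) → ℝ, (∀ q, |c q| ≤ 1) →
  ∀ α β : ℕ → ℝ, (∀ m, |α m| ≤ tau m * Real.log X) → (∀ n, |β n| ≤ tau n * Real.log X) →
    |∑ q ∈ S, c q * ∑ m ∈ Ioc ⌊X ^ (1 / 3 : ℝ)⌋₊ ⌊3 * X⌋₊, ∑ n ∈ Ioc ⌊X ^ (1 / 3 : ℝ)⌋₊ ⌊3 * X⌋₊,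
      α m * β n * H378R2.Phi (((m * n : ℕ) : ℝ) / X) * dl h W b (D0 X B) q (m * n)| ≤ X / (Real.log X) ^ A

end Pool.Agent.Y826.ZG
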