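import Mathlib
import Pool.Agent.Y826.ZG.Defs3

/-! Project Y826/ZG: the bilinear forms for any modulus `W` from those for squarefree `W`: the coefficients
are restricted to residue classes mod `W`. -/

open Finset Filter

namespace Pool.Agent.Y826.ZG

open Pool.Agent.Y826.Z (Pr ind smp rop sm ro D0 tau Sz szg GroupOK GoodT)
open Pool.Agent.Y826.ZL (Cd dl)

theorem ind_congr' {P Q : Prop} (h : P ↔ Q) : ind P = ind Q := by
  rw [propext h]

theorem ind_false' {P : Prop} (h : ¬ P) : ind P = 0 := by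
  unfold ind; exact if_neg h

theorem hyp_rd {K : ℕ} {h : Fin K → ℤ × ℤ} {W b : ℕ} (H : Hyp h W b) : ZL.Hyp h (rd W) b where
  wpos := rd_pos H.wpos
  wsf := rd_sqf H.wpos
  bW := H.bW.coprime_dvd_right (rd_dvd W)
  h0 := fun p hp hpW => H.h0 p hp fun h => hpW ((prime_dvd_rd hp).2 h)
  h1 := fun p hp hpW => H.h1 p hp fun h => hpW ((prime_dvd_rd hp).2 h)

theorem dl_of_mod {K : ℕ} (h : Fin K → ℤ × ℤ) {W b D : ℕ} (q : Fin K → ℕ) {n : ℕ} (hn : n ≡ b [MOD W]) :
    dl h W b D q n = dl h (rd W) b D q n := by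
  have h1 : n ≡ b [MOD rd W] := hn.of_dvd (rd_dvd W)
  unfold dl
  rw [ind_congr' (show (n ≡ b [MOD W] ∧ Cd h q n) ↔ (n ≡ b [MOD rd W] ∧ Cd h q n) from
      ⟨fun h => ⟨h1, h.2⟩, fun h => ⟨hn, h.2⟩⟩),
    ind_congr' (show (n ≡ b [MOD W] ∧ Cd h (sm D q) n ∧ n.Coprime (Pr (ro D q))) ↔
      (n ≡ b [MOD rd W] ∧ Cd h (sm D q) n ∧ n.Coprime (Pr (ro D q))) from
      ⟨fun h => ⟨h1, h.2⟩, fun h => ⟨hn, h.2⟩⟩)]

theorem dl_of_not {K : ℕ} (h : Fin K → ℤ × ℤ) {W b D : ℕ} (q : Fin K → ℕ) {n : ℕ} (hn : ¬ n ≡ b [MOD W]) :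
    dl h W b D q n = 0 := by
  unfold dl
  rw [ind_false' (fun h => hn h.1), ind_false' (fun h => hn h.1)]
  simp

open Classical in
/-- restriction to a residue class -/
noncomputable def rcl (W μ : ℕ) (α : ℕ → ℝ) (m : ℕ) : ℝ := if m % W = μ then α m else 0

open Classical in
/-- pairs of classes -/
noncomputable def PP (W b : ℕ) : Finset (ℕ × ℕ) :=
  ((range W) ×ˢ (range W)).filter (fun p => p.1 * p.2 ≡ b [MOD W])

theorem term_split {K : ℕ} (h : Fin K → ℤ × ℤ) {W b D : ℕ} (hW : 0 < W) (q : Fin K → ℕ) (α β : ℕ → ℝ) (m n : ℕ) :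
    α m * β n * dl h W b D q (m * n) =
      ∑ p ∈ PP W b, rcl W p.1 α m * rcl W p.2 β n * dl h (rd W) b D q (m * n) := by
  classical
  by_cases hmn : m * n ≡ b [MOD W]
  · have hmem : (m % W, n % W) ∈ PP W b := by
      unfold PP
      rw [mem_filter, mem_product, mem_range, mem_range]
      refine ⟨⟨Nat.mod_lt _ hW, Nat.mod_lt _ hW⟩, ?_⟩
      exact ((Nat.mod_modEq m W).mul (Nat.mod_modEq n W)).trans hmn
    rw [Finset.sum_eq_single_of_mem _ hmem]
    · rw [dl_of_mod h q hmn]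
      unfold rcl
      rw [if_pos rfl, if_pos rfl]
    · rintro ⟨μ, ν⟩ - hne
      by_cases h1 : m % W = μ
      · by_cases h2 : n % W = ν
        · exact absurd (by rw [h1, h2]) hne
        · simp [rcl, h2]
      · simp [rcl, h1]
  · rw [dl_of_not h q hmn, mul_zero]
    symm
    apply Finset.sum_eq_zero
    rintro ⟨μ, ν⟩ hp
    unfold PP at hp
    rw [mem_filter] at hp
    by_cases h1 : m % W = μ
    · by_cases h2 : n % W = ν
      · exfalso
        apply hmn
        have h3 := hp.2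
        simp only at h3
        rw [← h1, ← h2] at h3
        exact ((Nat.mod_modEq m W).mul (Nat.mod_modEq n W)).symm.trans h3
      · simp [rcl, h2]
    · simp [rcl, h1]

theorem rcl_abs (W μ : ℕ) (α : ℕ → ℝ) (m : ℕ) : |rcl W μ α m| ≤ |α m| := by
  unfold rcl
  split_ifs
  · exact le_rfl
  · simp

/-- any modulus -/
theorem tii_of (hT : ZL.S_TII) : S_TII := by
  intro K h W b H δ hδ
  obtain ⟨ε, hε, hT1⟩ := hT K h (rd W) b (hyp_rd H) δ hδ
  refine ⟨ε, hε, fun A => ?_⟩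
  obtain ⟨B0, hB0⟩ := hT1 (A + 1)
  refine ⟨B0, fun B hB => ?_⟩
  have hlog : ∀ᶠ X : ℝ in atTop, ((W : ℝ) * W) + 1 ≤ Real.log X :=
    Real.tendsto_log_atTop.eventually_ge_atTop _
  filter_upwards [hB0 B hB, hlog, eventually_gt_atTop 0] with X hX hL hX0
  intro M N Q g hQ hSz S hS c hc α β hα hβ
  have hpos : 0 < Real.log X := by nlinarith [mul_self_nonneg (W : ℝ)]
  have hE : ∀ p : ℕ × ℕ, |∑ q ∈ S, c q * ∑ m ∈ Ioc M (2 * M), ∑ n ∈ Ioc N (2 * N),
      rcl W p.1 α m * rcl W p.2 β n * dl h (rd W) b (D0 X B) q (m * n)| ≤ X / (Real.log X) ^ (A + 1) := by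
    intro p
    exact hX M N Q g hQ hSz S hS c hc _ _ (fun m hm => (rcl_abs _ _ _ _).trans (hα m hm))
      (fun n hn => (rcl_abs _ _ _ _).trans (hβ n hn))
  have hsplit : ∑ q ∈ S, c q * ∑ m ∈ Ioc M (2 * M), ∑ n ∈ Ioc N (2 * N),
      α m * β n * dl h W b (D0 X B) q (m * n) =
      ∑ p ∈ PP W b, ∑ q ∈ S, c q * ∑ m ∈ Ioc M (2 * M), ∑ n ∈ Ioc N (2 * N),
        rcl W p.1 α m * rcl W p.2 β n * dl h (rd W) b (D0 X B) q (m * n) := by
    rw [Finset.sum_comm]
    refine Finset.sum_congr rfl fun q _ => ?_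
    rw [← Finset.mul_sum]
    congr 1
    rw [Finset.sum_comm (s := PP W b)]
    refine Finset.sum_congr rfl fun m _ => ?_
    rw [Finset.sum_comm (s := PP W b)]
    refine Finset.sum_congr rfl fun n _ => ?_
    exact term_split h H.wpos q α β m n
  rw [hsplit]
  refine (Finset.abs_sum_le_sum_abs _ _).trans ?_
  refine (Finset.sum_le_sum fun p _ => hE p).trans ?_
  rw [Finset.sum_const, nsmul_eq_mul]
  have hcard : ((PP W b).card : ℝ) ≤ W * W := by
    have : (PP W b).card ≤ W * W := by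
      unfold PP
      refine (Finset.card_filter_le _ _).trans ?_
      rw [Finset.card_product, Finset.card_range]
    exact_mod_cast this
  calc ((PP W b).card : ℝ) * (X / (Real.log X) ^ (A + 1)) ≤ Real.log X * (X / (Real.log X) ^ (A + 1)) := by
        apply mul_le_mul_of_nonneg_right _ (by positivity)
        linarith
    _ = X / (Real.log X) ^ A := by
        rw [pow_succ]
        field_simp

end Pool.Agent.Y826.ZG
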