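import Mathlib
import Pool.Agent.Y826.Z.Main
import Pool.Agent.Y826.ZL.Y870.Ph
import Pool.Agent.Y826.ZL.Y535.OA
import Pool.Agent.Y826.ZL.Y814.OC
import Pool.Agent.Y826.ZL.Y474.G
import Pool.Agent.Y826.ZL.Y61.TII
import Pool.Agent.Y826.ZG.TG
import Pool.Agent.Y826.ZG.TI
import Pool.Agent.Y826.ZG.Y674.BX
import Pool.Agent.Y826.ZG.Y818.Lam
import Pool.Agent.Y826.ZG.Y202.ZD
import Pool.Agent.Y826.ZG.Y950.ZZ

/-! Project Y826/ZG: primes in residue classes (given by linear forms) to factorable moduli beyond the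
level `1/2`, unconditionally: all the parts together. -/

namespace Pool.Agent.Y826.ZG

theorem s_oa : ZL.S_OA := ZL.Y535.oa ZL.Y870.phase Pool.Agent.Y826.Z.s_vdc

theorem s_off : ZL.S_OFF := ZL.Y814.off s_oa

theorem s_tii0 : ZL.S_TII := ZL.Y61.tii s_off ZL.Y474.triv Pool.Agent.Y826.Z.bls

theorem s_tii : S_TII := tii_of s_tii0

theorem s_bx : S_BX := Y674.bx s_tii

theorem s_lam : S_LAM := Y818.lam s_bx ti

theorem s_z : S_Z := Y202.zbox s_lam

/-- the equidistribution theorem for linear forms -/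
theorem s_zz : S_ZZ := Y950.zz s_z

end Pool.Agent.Y826.ZG
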