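import Mathlib
import Pool.Agent.Y826.ZG.Defs
import Pool.Agent.Y826.Z.Defs5
import Pool.Agent.H95R2.BG.DefsL

/-! Project Y826/ZG (helper826): the sieve part for linear forms: statements. -/

open Finset Filter

namespace Pool.Agent.Y826.ZG

open Pool.Agent.H95R2.BG Pool.Agent.H95R2.BG.LF Pool.Agent.H378R2
open Pool.Agent.Y826.Z (GoodT tp Ev)

/-- pair asymptotics over the primes `A i * n + B i`, beyond the level `1/2`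
(compare `H95R2.BG.LF.S2pairL` and `Y826.Z.S_P2`) -/
def S_P2L : Prop := ∀ {K0 : ℕ} (τ : ℝ), 0 < τ → τ < 1 / 8 → ∀ (F G : Fin K0 → ℝ → ℝ) (cF cG : Fin K0 → ℝ),
    (∀ j, GF (F j) (cF j)) → (∀ j, GF (G j) (cG j)) →
    (∑ j, cF j + ∑ j, cG j ≤ 2 ∨
      (∑ j, cF j + ∑ j, cG j ≤ 54 / 25 ∧ ∃ δ : ℝ, 0 < δ ∧ GoodT δ (tp cF cG))) →
    ∀ ε : ℝ, 0 < ε →
    ∃ D0 : ℕ, ∀ D : ℕ, D0 ≤ D → ∀ A B : Fin (K0 + 1) → ℕ, SepL D A B → ∀ (i : Fin (K0 + 1)) (a : ℕ),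
      (A i * a + B i).Coprime (WD D) → ∀ᶠ X : ℝ in atTop,
      |∑ n ∈ Icc 1 ⌊3 * X⌋₊, nu X (WD D) a n * th (A i * n + B i) *
          ∏ j : Fin K0, (vv τ D X (F j) ((rem A i j : ℤ) * n + rem B i j) *
            vv τ D X (G j) ((rem A i j : ℤ) * n + rem B i j)) -
        NN τ D X (K0 + 1) * Real.log X * ((1 / 4 - τ) * ∏ j, DD (F j) (G j))| ≤
      ε * (NN τ D X (K0 + 1) * Real.log X)

/-- the criterion with coefficients which depend on the cells, for linear forms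
(compare `H95R2.BG.LF.criterionL` and `Y826.Z.S_CRIT`) -/
def S_CRITL : Prop := ∀ {K0 N1 M R : ℕ}, 0 < N1 → M ≤ 2 * N1 → R < 2 * N1 →
    ∀ (F : (Fin (K0 + 1) → ℕ) → ℝ), (∀ c, F c ≠ 0 → rad c ≤ R + 1) →
    ∀ (S : Finset (Fin K0 → ℕ)), S ⊆ Box K0 M → (∀ i, ∀ c ∈ Box K0 M, UU M F i c ≠ 0 → c ∈ S) →
    ∀ (r : ℕ) (μ : Fin r → ℝ), (∀ l, 0 ≤ μ l) → ∀ (α : Fin r → (Fin K0 → ℕ) → ℝ)
      (κ : (Fin K0 → ℕ) → (Fin K0 → ℕ) → ℝ),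
    (∀ Y : (Fin K0 → ℕ) → ℝ, ∑ c ∈ S, ∑ c' ∈ S, κ c c' * (Y c * Y c') ≤
      (∑ c ∈ S, Y c) ^ 2 + ∑ l, μ l * (∑ c ∈ S, α l c * Y c) ^ 2) →
    (∀ c ∈ S, ∀ c' ∈ S, κ c c' ≠ 0 → Ev N1 c c') →
    (4 * N1 * ∑ c ∈ Box (K0 + 1) M, F c ^ 2 <
      ∑ i, ∑ c ∈ S, (κ c c - 4 * ∑ l, μ l * (α l c ^ 2 / (2 - (rad c : ℝ) / N1))) * UU M F i c ^ 2) →
    ∀ (A B : Fin (K0 + 1) → ℕ), AdmissibleL A B →
    ∀ ε : ℝ, 0 < ε → ∀ᶠ X : ℝ in atTop, X ^ (1 - ε) ≤ ((goodL A B X).card : ℝ)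

/-- the layered choice of the multipliers, for an effective radius `ρ` and the point of reflection `L`,
for linear forms (compare `Y826.Z.S_LAY`) -/
def S_LAYL : Prop := ∀ {K0 N1 M R L Dm : ℕ}, 0 < N1 → M ≤ 2 * N1 → R < 2 * N1 → Dm < L → L ≤ 2 * N1 →
    ∀ (F : (Fin (K0 + 1) → ℕ) → ℝ), (∀ c, F c ≠ 0 → rad c ≤ R + 1) →
    ∀ (S : Finset (Fin K0 → ℕ)), S ⊆ Box K0 M → (∀ i, ∀ c ∈ Box K0 M, UU M F i c ≠ 0 → c ∈ S) →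
    (∀ c ∈ S, rad c ≤ R) → ∀ ρ : (Fin K0 → ℕ) → ℕ, (∀ c ∈ S, ρ c ≤ L + Dm) →
    (∀ c ∈ S, ∀ c' ∈ S, ρ c + ρ c' ≤ 2 * L → Ev N1 c c') →
    ∀ (r : ℕ) (μ : Fin r → ℝ), (∀ l, 0 ≤ μ l) → ∀ (T : Fin r → ℕ) (W : (Fin K0 → ℕ) → ℝ),
    (∀ c ∈ S, ρ c + Dm ≤ L → W c ≤ 1) →
    (∀ c ∈ S, L < ρ c + Dm → ρ c ≤ L →
      W c ≤ 1 - 1 / (1 + 4 / (2 + (rad c : ℝ) / N1) * ∑ l, if T l ≤ L - ρ c then μ l else 0)) →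
    (∀ c ∈ S, L < ρ c → W c ≤ - (4 * (∑ l, if T l < ρ c - L then μ l else 0) / (2 - (rad c : ℝ) / N1))) →
    (4 * N1 * ∑ c ∈ Box (K0 + 1) M, F c ^ 2 < ∑ i, ∑ c ∈ S, W c * UU M F i c ^ 2) →
    ∀ (A B : Fin (K0 + 1) → ℕ), AdmissibleL A B →
    ∀ ε : ℝ, 0 < ε → ∀ᶠ X : ℝ in atTop, X ^ (1 - ε) ≤ ((goodL A B X).card : ℝ)

/-- `DHL[45,2]` for linear forms, with a count -/
def Dhl45L : Prop := ∀ (A B : Fin 45 → ℕ), AdmissibleL A B → ∀ ε : ℝ, 0 < ε →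
  ∀ᶠ X : ℝ in atTop, X ^ (1 - ε) ≤ ((goodL A B X).card : ℝ)

end Pool.Agent.Y826.ZG
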