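import Mathlib
import Pool.Agent.Y826.ZG.Defs4
import Pool.Agent.Y826.Z.CritA
import Pool.Agent.H95R2.BG.LPointwise

/-! Project Y826/ZG, job CRITL (helper41): linear forms, sums with cell-level coefficients, the pointwise inequality. -/

open Finset Filter MeasureTheory
open scoped ContDiff

namespace Pool.Agent.Y826.ZG

open Pool.Agent.H378R2 Pool.Agent.H95R2.BG.LF
open Pool.Agent.H95R2.BG hiding ww zz qq prodv
open Pool.Agent.Y826.Z (GoodT tp Ev sum_box_A)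


/-- the sums which are bounded by the Selberg majorant of the primes, cell-level multipliers -/
noncomputable def zzcL (τ : ℝ) (D : ℕ) (X : ℝ) {K0 : ℕ} (f ψ : ℕ → ℝ → ℝ) (M : ℕ) (F : (Fin (K0 + 1) → ℕ) → ℝ)
    (A B : Fin (K0 + 1) → ℕ) (i : Fin (K0 + 1)) (S : Finset (Fin K0 → ℕ)) (α : (Fin K0 → ℕ) → ℝ) (n : ℕ) : ℝ :=
  ∑ c ∈ S, α c * UU M F i c *
    (vv τ D X (ψ (rad c)) ((A i : ℤ) * n + B i) * prodv τ D X f (rem A i) (rem B i) c n)

/-- the quadratic form with coefficients `κ c c'` -/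
noncomputable def qqcL (τ : ℝ) (D : ℕ) (X : ℝ) {K0 : ℕ} (f : ℕ → ℝ → ℝ) (M : ℕ) (F : (Fin (K0 + 1) → ℕ) → ℝ)
    (A B : Fin (K0 + 1) → ℕ) (i : Fin (K0 + 1)) (S : Finset (Fin K0 → ℕ))
    (κ : (Fin K0 → ℕ) → (Fin K0 → ℕ) → ℝ) (n : ℕ) : ℝ :=
  ∑ c ∈ S, ∑ c' ∈ S, κ c c' *
    ((UU M F i c * prodv τ D X f (rem A i) (rem B i) c n) *
      (UU M F i c' * prodv τ D X f (rem A i) (rem B i) c' n))

theorem pointwise_cL {K0 N1 M R : ℕ} {f ψ : ℕ → ℝ → ℝ} {β κ₀ : ℝ}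
    (hR : R < 2 * N1) (hf : Cells N1 M f β) (hψ : Psis N1 κ₀ ψ)
    (F : (Fin (K0 + 1) → ℕ) → ℝ) (hF : ∀ c, F c ≠ 0 → rad c ≤ R + 1)
    (S : Finset (Fin K0 → ℕ)) (hS : S ⊆ Box K0 M) (hU : ∀ i, ∀ c ∈ Box K0 M, UU M F i c ≠ 0 → c ∈ S)
    (r : ℕ) (μ : Fin r → ℝ) (hμ : ∀ l, 0 ≤ μ l) (α : Fin r → (Fin K0 → ℕ) → ℝ)
    (κ : (Fin K0 → ℕ) → (Fin K0 → ℕ) → ℝ)
    (hpsd : ∀ Y : (Fin K0 → ℕ) → ℝ, ∑ c ∈ S, ∑ c' ∈ S, κ c c' * (Y c * Y c') ≤
      (∑ c ∈ S, Y c) ^ 2 + ∑ l, μ l * (∑ c ∈ S, α l c * Y c) ^ 2)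
    (τ : ℝ) (hτ : 0 < τ) (hτ' : τ < 1 / 8) (D : ℕ) (A B : Fin (K0 + 1) → ℕ) (hA : ∀ i, 1 ≤ A i)
    (a0 : ℕ) (ha0 : ∀ i, A i ≤ a0) :
    ∀ᶠ X : ℝ in atTop, ∀ n : ℕ, X < n → (n : ℝ) ≤ 3 * X → ∀ i,
      th (A i * n + B i) * qqcL τ D X f M F A B i S κ n -
          Real.log (4 * a0 * X) * ∑ l, μ l * zzcL τ D X f ψ M F A B i S (α l) n ^ 2 ≤
        th (A i * n + B i) * ww τ D X f M F A B n ^ 2 := by
  filter_upwards [eventually_gt_atTop (1 : ℝ), eventually_ge_atTop (((∑ j, B j : ℕ) : ℝ))] with X hX1 hXh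
  intro n hXn hn3 i
  have hX0 : 0 < X := by linarith
  have ha01 : (1 : ℝ) ≤ a0 := by exact_mod_cast (hA i).trans (ha0 i)
  have ha0X : X ≤ a0 * X := by nlinarith
  have hlog4 : 0 ≤ Real.log (4 * a0 * X) := Real.log_nonneg (by nlinarith)
  have hS0 : 0 ≤ ∑ l, μ l * zzcL τ D X f ψ M F A B i S (α l) n ^ 2 :=
    Finset.sum_nonneg fun l _ => mul_nonneg (hμ l) (sq_nonneg _)
  by_cases hp : (A i * n + B i).Prime
  swap
  · have : th (A i * n + B i) = 0 := by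
      unfold th; rw [if_neg hp]
    rw [this]
    have := mul_nonneg hlog4 hS0
    linarith
  -- the prime case
  have hR1 : 1 ≤ Rt τ X := C1_Rt_pos τ hτ' X hX1.le
  have hRlt : Rt τ X < A i * n + B i := by
    have h1 := C1_Rt_lt τ hτ X hX1
    have h2 : (Rt τ X : ℝ) < (n : ℝ) := by linarith
    have h3 : Rt τ X < n := by exact_mod_cast h2
    have h4 : n ≤ A i * n := Nat.le_mul_of_pos_left n (hA i)
    omega
  have hvv : ∀ φ : ℝ → ℝ, vv τ D X φ ((A i : ℤ) * n + B i) = φ 0 := by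
    intro φ
    unfold vv
    have : ((A i : ℤ) * (n : ℤ) + (B i : ℤ)) = ((A i * n + B i : ℕ) : ℤ) := by push_cast; ring
    rw [this]
    exact VV_prime _ _ hR1 _ _ _ hp hRlt
  set P : (Fin K0 → ℕ) → ℝ := fun c => prodv τ D X f (rem A i) (rem B i) c n with hP
  set Y : (Fin K0 → ℕ) → ℝ := fun c => UU M F i c * P c with hY
  have hww : ww τ D X f M F A B n = ∑ c ∈ S, Y c := by
    have h1 : ww τ D X f M F A B n = ∑ c ∈ Box K0 M, UU M F i c * P c := by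
      unfold ww
      rw [C1_sum_box i]
      apply Finset.sum_congr rfl
      intro c _
      rw [UU, Finset.sum_mul]
      apply Finset.sum_congr rfl
      intro t _
      congr 1
      rw [hP]
      unfold prodv
      rw [Fin.prod_univ_succAbove _ i]
      simp only [Fin.insertNth_apply_same, Fin.insertNth_apply_succAbove]
      rw [hvv, hf.one, one_mul]
      rfl
    rw [h1, sum_box_A hS i (hU i)]
  have hzz : ∀ l, zzcL τ D X f ψ M F A B i S (α l) n = ∑ c ∈ S, α l c * Y c := by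
    intro l
    unfold zzcL
    apply Finset.sum_congr rfl
    intro c _
    by_cases hU0 : UU M F i c = 0
    · simp only [hY]
      rw [hU0]; ring
    · have hr := C1_UU_rad F hF i c hU0
      rw [hvv, hψ.one _ (by omega), one_mul, mul_assoc]
  have hmain : qqcL τ D X f M F A B i S κ n ≤ ww τ D X f M F A B n ^ 2 +
      ∑ l, μ l * zzcL τ D X f ψ M F A B i S (α l) n ^ 2 := by
    rw [hww]
    simp_rw [hzz]
    exact hpsd Y
  have hth0 : 0 ≤ th (A i * n + B i) := th_nonneg _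
  have hth1 : th (A i * n + B i) ≤ Real.log (4 * a0 * X) := by
    unfold th
    rw [if_pos hp]
    apply Real.log_le_log
    · exact_mod_cast hp.pos
    · have h1 : ((B i : ℕ) : ℝ) ≤ ((∑ j, B j : ℕ) : ℝ) := by
        exact_mod_cast Finset.single_le_sum (f := B) (fun _ _ => Nat.zero_le _) (Finset.mem_univ i)
      have h2 : (A i : ℝ) ≤ a0 := by exact_mod_cast ha0 i
      have h3 : (A i : ℝ) * n ≤ a0 * (3 * X) :=
        mul_le_mul h2 hn3 (Nat.cast_nonneg n) (by linarith)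
      push_cast
      push_cast at h1 hXh
      linarith
  have e1 := mul_le_mul_of_nonneg_left hmain hth0
  have e2 := mul_le_mul_of_nonneg_right hth1 hS0
  rw [mul_add] at e1
  linarith

end Pool.Agent.Y826.ZG
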