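import Mathlib
import Pool.Agent.Y826.ZG.CritLA
import Pool.Agent.H95R2.BG.LLim

/-! Project Y826/ZG, job CRITL (helper41): asymptotics of the quadratic forms, linear forms. -/

open Finset Filter MeasureTheory
open scoped ContDiff

namespace Pool.Agent.Y826.ZG

open Pool.Agent.H378R2 Pool.Agent.H95R2.BG.LF
open Pool.Agent.H95R2.BG hiding ww zz qq prodv
open Pool.Agent.Y826.Z (GoodT tp Ev sum_box_A)

/-- S2 for quadratic forms, beyond the level `1/2`, linear forms -/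
theorem S2quad_cL (hP2 : S_P2L) {K0 : ℕ} {ι : Type} (T : Finset ι) (τ : ℝ) (hτ : 0 < τ) (hτ' : τ < 1 / 8)
    (F : ι → Fin K0 → ℝ → ℝ) (c : ι → Fin K0 → ℝ) (hF : ∀ a ∈ T, ∀ j, GF (F a j) (c a j))
    (x : ι → ι → ℝ) (hsum : ∀ a ∈ T, ∀ b ∈ T, x a b ≠ 0 → (∑ j, c a j + ∑ j, c b j ≤ 2 ∨
      (∑ j, c a j + ∑ j, c b j ≤ 54 / 25 ∧ ∃ δ : ℝ, 0 < δ ∧ GoodT δ (tp (c a) (c b))))) (ε : ℝ) (hε : 0 < ε) :
    ∃ D0 : ℕ, ∀ D : ℕ, D0 ≤ D → ∀ A B : Fin (K0 + 1) → ℕ, SepL D A B → ∀ (i : Fin (K0 + 1)) (a0 : ℕ),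
      (A i * a0 + B i).Coprime (WD D) → ∀ᶠ X : ℝ in atTop,
      |∑ n ∈ Icc 1 ⌊3 * X⌋₊, nu X (WD D) a0 n * th (A i * n + B i) * (∑ a ∈ T, ∑ b ∈ T, x a b *
          ((∏ j, vv τ D X (F a j) ((rem A i j : ℤ) * n + rem B i j)) * ∏ j, vv τ D X (F b j) ((rem A i j : ℤ) * n + rem B i j))) -
        NN τ D X (K0 + 1) * Real.log X * ((1 / 4 - τ) * ∑ a ∈ T, ∑ b ∈ T, x a b * ∏ j, DD (F a j) (F b j))| ≤
      ε * (NN τ D X (K0 + 1) * Real.log X) := by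
  classical
  obtain ⟨hε', hε''⟩ := Quad.eps_le T x ε hε
  set ε' := ε / (∑ a ∈ T, ∑ b ∈ T, |x a b| + 1) with hdef
  have key : ∀ p ∈ (T ×ˢ T).filter (fun p => x p.1 p.2 ≠ 0), ∃ D0 : ℕ, ∀ D : ℕ, D0 ≤ D →
      ∀ A B : Fin (K0 + 1) → ℕ, SepL D A B → ∀ (i : Fin (K0 + 1)) (a : ℕ),
      (A i * a + B i).Coprime (WD D) → ∀ᶠ X : ℝ in atTop,
      |∑ n ∈ Icc 1 ⌊3 * X⌋₊, nu X (WD D) a n * th (A i * n + B i) *
          ∏ j : Fin K0, (vv τ D X (F p.1 j) ((rem A i j : ℤ) * n + rem B i j) *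
            vv τ D X (F p.2 j) ((rem A i j : ℤ) * n + rem B i j)) -
        NN τ D X (K0 + 1) * Real.log X * ((1 / 4 - τ) * ∏ j, DD (F p.1 j) (F p.2 j))| ≤
      ε' * (NN τ D X (K0 + 1) * Real.log X) := by
    intro p hp
    rw [Finset.mem_filter, Finset.mem_product] at hp
    exact hP2 τ hτ hτ' (F p.1) (F p.2) (c p.1) (c p.2) (hF _ hp.1.1) (hF _ hp.1.2)
      (hsum _ hp.1.1 _ hp.1.2 hp.2) ε' hε'
  choose! D0 hD0 using key
  refine ⟨((T ×ˢ T).filter (fun p => x p.1 p.2 ≠ 0)).sup D0, fun D hD A B hS i a0 hcop => ?_⟩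
  have hall : ∀ᶠ X : ℝ in atTop, ∀ p ∈ (T ×ˢ T).filter (fun p => x p.1 p.2 ≠ 0),
      |∑ n ∈ Icc 1 ⌊3 * X⌋₊, nu X (WD D) a0 n * th (A i * n + B i) *
          ∏ j : Fin K0, (vv τ D X (F p.1 j) ((rem A i j : ℤ) * n + rem B i j) *
            vv τ D X (F p.2 j) ((rem A i j : ℤ) * n + rem B i j)) -
        NN τ D X (K0 + 1) * Real.log X * ((1 / 4 - τ) * ∏ j, DD (F p.1 j) (F p.2 j))| ≤
      ε' * (NN τ D X (K0 + 1) * Real.log X) := by
    rw [Filter.eventually_all_finset]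
    intro p hp
    exact hD0 p hp D ((Finset.le_sup hp).trans hD) A B hS i a0 hcop
  filter_upwards [hall, NN_pos τ (by linarith) D (K0 + 1), eventually_ge_atTop 1] with X hX hN hX1
  have hlog : 0 ≤ Real.log X := Real.log_nonneg hX1
  have := Quad.gen T x
    (fun a b => ∑ n ∈ Icc 1 ⌊3 * X⌋₊, nu X (WD D) a0 n * th (A i * n + B i) *
          ∏ j : Fin K0, (vv τ D X (F a j) ((rem A i j : ℤ) * n + rem B i j) *
            vv τ D X (F b j) ((rem A i j : ℤ) * n + rem B i j)))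
    (fun a b => (1 / 4 - τ) * ∏ j, DD (F a j) (F b j)) (NN τ D X (K0 + 1) * Real.log X) ε ε'
    (mul_nonneg hN.le hlog) hε''
    (fun a ha b hb h0 => hX (a, b) (Finset.mem_filter.2 ⟨Finset.mem_product.2 ⟨ha, hb⟩, h0⟩))
  have e2 : ∑ n ∈ Icc 1 ⌊3 * X⌋₊, nu X (WD D) a0 n * th (A i * n + B i) * (∑ a ∈ T, ∑ b ∈ T, x a b *
          ((∏ j, vv τ D X (F a j) ((rem A i j : ℤ) * n + rem B i j)) * ∏ j, vv τ D X (F b j) ((rem A i j : ℤ) * n + rem B i j))) =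
      ∑ a ∈ T, ∑ b ∈ T, x a b * ∑ n ∈ Icc 1 ⌊3 * X⌋₊, nu X (WD D) a0 n * th (A i * n + B i) *
          ∏ j : Fin K0, (vv τ D X (F a j) ((rem A i j : ℤ) * n + rem B i j) *
            vv τ D X (F b j) ((rem A i j : ℤ) * n + rem B i j)) := by
    simp only [Finset.mul_sum]
    rw [Finset.sum_comm]
    refine Finset.sum_congr rfl fun a _ => ?_
    rw [Finset.sum_comm]
    refine Finset.sum_congr rfl fun b _ => ?_
    refine Finset.sum_congr rfl fun n _ => ?_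
    rw [Finset.prod_mul_distrib]
    ring
  have e3 : ∑ a ∈ T, ∑ b ∈ T, x a b * ((1 / 4 - τ) * ∏ j, DD (F a j) (F b j)) =
      (1 / 4 - τ) * ∑ a ∈ T, ∑ b ∈ T, x a b * ∏ j, DD (F a j) (F b j) := by
    simp only [Finset.mul_sum]
    refine Finset.sum_congr rfl fun a _ => Finset.sum_congr rfl fun b _ => ?_
    ring
  rw [e2, ← e3]
  exact this

/-- the asymptotic lower bound for the quadratic form -/
theorem lim_qq_cL (hP2 : S_P2L) {K0 N1 M : ℕ} {f : ℕ → ℝ → ℝ} {β : ℝ} (hN1 : 0 < N1) (hf : Cells N1 M f β)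
    (F : (Fin (K0 + 1) → ℕ) → ℝ) (S : Finset (Fin K0 → ℕ)) (hS : S ⊆ Box K0 M)
    (κ : (Fin K0 → ℕ) → (Fin K0 → ℕ) → ℝ) (hκ : ∀ c ∈ S, ∀ c' ∈ S, κ c c' ≠ 0 → Ev N1 c c')
    (τ : ℝ) (hτ : 0 < τ) (hτ' : τ < 1 / 8) (ε : ℝ) (hε : 0 < ε) :
    ∃ D0 : ℕ, ∀ D : ℕ, D0 ≤ D → ∀ A B : Fin (K0 + 1) → ℕ, SepL D A B → ∀ (i : Fin (K0 + 1)) (a : ℕ),
      (A i * a + B i).Coprime (WD D) → ∀ᶠ X : ℝ in atTop,
      NN τ D X (K0 + 1) * Real.log X *
          ((1 / 4 - τ) * (β ^ K0 * ∑ c ∈ S, κ c c * UU M F i c ^ 2) - ε) ≤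
        ∑ n ∈ Icc 1 ⌊3 * X⌋₊, nu X (WD D) a n * (th (A i * n + B i) * qqcL τ D X f M F A B i S κ n) := by
  classical
  have hN : (0 : ℝ) < N1 := by exact_mod_cast hN1
  have key := fun i : Fin (K0 + 1) => S2quad_cL hP2 S τ hτ hτ' (fun c j => f (c j))
    (fun c j => ((c j : ℝ) + 1) / N1)
    (fun c hc j => hf.good _ (Lim.mem_Box.1 (hS hc) j))
    (fun c c' => κ c c' * (UU M F i c * UU M F i c'))
    (fun a ha b hb hab => by
      rw [Lim.sum_len, Lim.sum_len, ← add_div]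
      have h1 : κ a b ≠ 0 := by
        intro h0
        rw [h0, zero_mul] at hab
        exact hab rfl
      rcases hκ a ha b hb h1 with h2 | ⟨h2, δ, hδ, hG⟩
      · left
        have := Lim.le_two hN1 h2
        exact_mod_cast this
      · right
        refine ⟨?_, δ, hδ, hG⟩
        rw [div_le_iff₀ hN]
        have h3 : (25 * ((rad a : ℝ) + (rad b : ℝ))) ≤ 54 * (N1 : ℝ) := by exact_mod_cast h2
        linarith) ε hε
  choose D0 hD0 using key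
  refine ⟨Finset.univ.sup D0, fun D hD A B hAB i a hcop => ?_⟩
  filter_upwards [hD0 i D ((Finset.le_sup (Finset.mem_univ i)).trans hD) A B hAB i a hcop] with X hX
  have e1 : ∀ n : ℕ, qqcL τ D X f M F A B i S κ n =
      ∑ a ∈ S, ∑ b ∈ S, κ a b * (UU M F i a * UU M F i b) *
          ((∏ j, vv τ D X (f (a j)) ((rem A i j : ℤ) * n + rem B i j)) *
            ∏ j, vv τ D X (f (b j)) ((rem A i j : ℤ) * n + rem B i j)) := by
    intro n
    unfold qqcL prodv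
    refine Finset.sum_congr rfl fun a _ => ?_
    refine Finset.sum_congr rfl fun b _ => ?_
    ring
  have e2 : ∑ a ∈ S, ∑ b ∈ S, κ a b * (UU M F i a * UU M F i b) *
      ∏ j, DD (f (a j)) (f (b j)) =
      β ^ K0 * ∑ c ∈ S, κ c c * UU M F i c ^ 2 := by
    have h1 : ∀ a ∈ S, ∑ b ∈ S, κ a b * (UU M F i a * UU M F i b) *
        ∏ j, DD (f (a j)) (f (b j)) = β ^ K0 * (κ a a * UU M F i a ^ 2) := by
      intro a ha
      rw [Finset.sum_eq_single_of_mem a ha]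
      · rw [Lim.prod_DD hf, if_pos rfl]
        ring
      · intro b _ hb
        rw [Lim.prod_DD hf, if_neg (Ne.symm hb), mul_zero]
    rw [Finset.sum_congr rfl h1, ← Finset.mul_sum]
  simp only [e1, ← mul_assoc] at hX ⊢
  simp only [← mul_assoc] at e2
  rw [e2] at hX
  have := (abs_le.1 hX).1
  linarith

/-- the asymptotic upper bound for the majorised sums -/
theorem lim_zz_cL {K0 N1 M R : ℕ} {f ψ : ℕ → ℝ → ℝ} {β κ₀ : ℝ} (hR : R < 2 * N1)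
    (hf : Cells N1 M f β) (hψ : Psis N1 κ₀ ψ)
    (F : (Fin (K0 + 1) → ℕ) → ℝ) (hF : ∀ c, F c ≠ 0 → rad c ≤ R + 1)
    (S : Finset (Fin K0 → ℕ)) (hS : S ⊆ Box K0 M) (α : (Fin K0 → ℕ) → ℝ)
    (τ : ℝ) (hτ : 0 < τ) (hτ' : τ < 1 / 8) (ε : ℝ) (hε : 0 < ε) :
    ∃ D0 : ℕ, ∀ D : ℕ, D0 ≤ D → ∀ A B : Fin (K0 + 1) → ℕ, SepL D A B → ∀ (i : Fin (K0 + 1)) (a : ℕ),
      ∀ᶠ X : ℝ in atTop,
      ∑ n ∈ Icc 1 ⌊3 * X⌋₊, nu X (WD D) a n * zzcL τ D X f ψ M F A B i S α n ^ 2 ≤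
        NN τ D X (K0 + 1) * (β ^ K0 * ((1 + κ₀) *
          ∑ c ∈ S, α c ^ 2 / (2 - (rad c : ℝ) / N1) * UU M F i c ^ 2) + ε) := by
  classical
  set T : Fin (K0 + 1) → Finset (Fin K0 → ℕ) :=
    fun i => S.filter (fun c => UU M F i c ≠ 0) with hT
  set G : Fin (K0 + 1) → (Fin K0 → ℕ) → Fin (K0 + 1) → ℝ → ℝ :=
    fun i c => Fin.insertNth (α := fun _ => ℝ → ℝ) i (ψ (rad c)) (fun j => f (c j)) with hG
  have key := fun i : Fin (K0 + 1) => S1quadL (T i) τ hτ hτ' (G i)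
    (fun c => Fin.insertNth (α := fun _ => ℝ) i (2 - (rad c : ℝ) / N1)
      (fun j => ((c j : ℝ) + 1) / N1))
    (fun c hc => by
      have h1 := Lim.rad_le_of_UU hF i (Finset.mem_filter.1 hc).2
      rw [Fin.forall_iff_succAbove i]
      refine ⟨?_, fun j => ?_⟩
      · simp only [hG, Fin.insertNth_apply_same]
        exact hψ.good _ (by omega)
      · simp only [hG, Fin.insertNth_apply_succAbove]
        exact hf.good _ (Lim.mem_Box.1 (hS (Finset.mem_filter.1 hc).1) j))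
    (fun c hc => by
      rw [Fin.sum_univ_succAbove _ i]
      simp only [Fin.insertNth_apply_same, Fin.insertNth_apply_succAbove]
      rw [Lim.sum_len]
      linarith)
    (fun c => α c * UU M F i c) ε hε
  choose D0 hD0 using key
  refine ⟨Finset.univ.sup D0, fun D hD A B hAB i a => ?_⟩
  filter_upwards [hD0 i D ((Finset.le_sup (Finset.mem_univ i)).trans hD) A B hAB a,
    NN_pos τ (by linarith) D (K0 + 1)] with X hX hN
  have e1 : ∀ n : ℕ, zzcL τ D X f ψ M F A B i S α n =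
      ∑ c ∈ T i, α c * UU M F i c * ∏ j, vv τ D X (G i c j) ((A j : ℤ) * n + B j) := by
    intro n
    unfold zzcL prodv
    rw [hT]
    simp only
    rw [← Finset.sum_filter_of_ne (p := fun c => UU M F i c ≠ 0) (s := S)]
    · refine Finset.sum_congr rfl fun c _ => ?_
      rw [Fin.prod_univ_succAbove _ i]
      simp only [hG, Fin.insertNth_apply_same, Fin.insertNth_apply_succAbove]
      rfl
    · intro c _ hc h0
      rw [h0] at hc
      simp at hc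
  have e2 : ∑ a ∈ T i, ∑ b ∈ T i, α a * UU M F i a * (α b * UU M F i b) *
      ∏ j, DD (G i a j) (G i b j) =
      β ^ K0 * ∑ c ∈ T i, DD (ψ (rad c)) (ψ (rad c)) * (α c ^ 2 * UU M F i c ^ 2) := by
    have h1 : ∀ a ∈ T i, ∑ b ∈ T i, α a * UU M F i a * (α b * UU M F i b) *
        ∏ j, DD (G i a j) (G i b j) =
        β ^ K0 * (DD (ψ (rad a)) (ψ (rad a)) * (α a ^ 2 * UU M F i a ^ 2)) := by
      intro a ha
      have h2 : ∀ b, ∏ j, DD (G i a j) (G i b j) =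
          DD (ψ (rad a)) (ψ (rad b)) * ∏ j, DD (f (a j)) (f (b j)) := by
        intro b
        rw [Fin.prod_univ_succAbove _ i]
        simp only [hG, Fin.insertNth_apply_same, Fin.insertNth_apply_succAbove]
      rw [Finset.sum_eq_single_of_mem a ha]
      · rw [h2, Lim.prod_DD hf, if_pos rfl]
        ring
      · intro b _ hb
        rw [h2, Lim.prod_DD hf, if_neg (Ne.symm hb), mul_zero, mul_zero]
    rw [Finset.sum_congr rfl h1, ← Finset.mul_sum]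
  simp only [e1]
  rw [e2] at hX
  have h3 := (abs_le.1 hX).2
  have hβ : 0 ≤ β := hf.pos.le
  have h4 : ∑ c ∈ T i, DD (ψ (rad c)) (ψ (rad c)) * (α c ^ 2 * UU M F i c ^ 2) ≤
      (1 + κ₀) * ∑ c ∈ S, α c ^ 2 / (2 - (rad c : ℝ) / N1) * UU M F i c ^ 2 := by
    have h5 : ∑ c ∈ S, α c ^ 2 / (2 - (rad c : ℝ) / N1) * UU M F i c ^ 2 =
        ∑ c ∈ T i, α c ^ 2 / (2 - (rad c : ℝ) / N1) * UU M F i c ^ 2 := by
      rw [hT]
      simp only
      rw [Finset.sum_filter_of_ne]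
      intro c _ hc h0
      rw [h0] at hc
      simp at hc
    rw [h5, Finset.mul_sum]
    refine Finset.sum_le_sum fun c hc => ?_
    have h6 := Lim.rad_le_of_UU hF i (Finset.mem_filter.1 hc).2
    have h7 := hψ.energy (rad c) (by omega)
    have h8 : (0 : ℝ) ≤ α c ^ 2 * UU M F i c ^ 2 := by positivity
    calc DD (ψ (rad c)) (ψ (rad c)) * (α c ^ 2 * UU M F i c ^ 2)
        ≤ (1 + κ₀) / (2 - (rad c : ℝ) / N1) * (α c ^ 2 * UU M F i c ^ 2) :=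
          mul_le_mul_of_nonneg_right h7 h8
      _ = _ := by ring
  have h9 : β ^ K0 * ∑ c ∈ T i, DD (ψ (rad c)) (ψ (rad c)) * (α c ^ 2 * UU M F i c ^ 2) ≤
      β ^ K0 * ((1 + κ₀) * ∑ c ∈ S, α c ^ 2 / (2 - (rad c : ℝ) / N1) *
        UU M F i c ^ 2) := mul_le_mul_of_nonneg_left h4 (by positivity)
  have h10 := mul_le_mul_of_nonneg_left h9 hN.le
  linarith


end Pool.Agent.Y826.ZG
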