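import Mathlib
import Pool.Agent.Y826.ZC.Dhl
import Pool.Agent.Y826.ZG.Defs4

/-! Project Y826/ZG: `DHL[45,2]` for linear forms, from the certificate. -/

open Finset Filter

namespace Pool.Agent.Y826.ZG

open Pool.Agent.H95R2.BG Pool.Agent.H95R2.BG.LF
open Pool.Agent.Y826.Z (Ev)
open Pool.Agent.Y826.ZC

/-- all the numerical constants as variables -/
theorem dhl45L_aux (hL : S_LAYL) (K N1 M R L Dm : ℕ) (F : (Fin (K + 1) → ℕ) → ℝ) (S : Finset (Fin K → ℕ))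
    (ρ : (Fin K → ℕ) → ℕ)
    (r : ℕ) (μ : Fin r → ℝ) (T : Fin r → ℕ) (W : (Fin K → ℕ) → ℝ)
    (h1 : 0 < N1) (h2 : M ≤ 2 * N1) (h3 : R < 2 * N1) (h4 : Dm < L) (h5 : L ≤ 2 * N1)
    (h6 : ∀ c, F c ≠ 0 → rad c ≤ R + 1) (h7 : S ⊆ Box K M) (h8 : ∀ i, ∀ c ∈ Box K M, UU M F i c ≠ 0 → c ∈ S)
    (h9 : ∀ c ∈ S, rad c ≤ R) (h10 : ∀ c ∈ S, ρ c ≤ L + Dm)
    (h11 : ∀ c ∈ S, ∀ c' ∈ S, ρ c + ρ c' ≤ 2 * L → Ev N1 c c')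
    (h12 : ∀ l, 0 ≤ μ l) (h13 : ∀ c ∈ S, ρ c + Dm ≤ L → W c ≤ 1)
    (h14 : ∀ c ∈ S, L < ρ c + Dm → ρ c ≤ L →
      W c ≤ 1 - 1 / (1 + 4 / (2 + (rad c : ℝ) / N1) * ∑ l, if T l ≤ L - ρ c then μ l else 0))
    (h15 : ∀ c ∈ S, L < ρ c → W c ≤ - (4 * (∑ l, if T l < ρ c - L then μ l else 0) / (2 - (rad c : ℝ) / N1)))
    (h16 : 4 * (N1 : ℝ) * ∑ c ∈ Box (K + 1) M, F c ^ 2 < ∑ i, ∑ c ∈ S, W c * UU M F i c ^ 2) :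
    ∀ (A B : Fin (K + 1) → ℕ), AdmissibleL A B →
    ∀ ε : ℝ, 0 < ε → ∀ᶠ X : ℝ in atTop, X ^ (1 - ε) ≤ ((goodL A B X).card : ℝ) :=
  hL h1 h2 h3 h4 h5 F h6 S h7 h8 h9 ρ h10 h11 r μ h12 T W h13 h14 h15 h16

attribute [local irreducible] FF UU Box AA rho WW mu

theorem dhl45L_of (hL : S_LAYL) (hB : S_KB) (hC : S_KC) (hE : S_KE) : Dhl45L := by
  have a8 : ∀ (i : Fin (44 + 1)), ∀ c ∈ Box 44 16384, UU 16384 (FF (K := 44 + 1)) i c ≠ 0 → c ∈ AA := hB.2.2.1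
  have a6 : ∀ c : Fin (44 + 1) → ℕ, FF c ≠ 0 → rad c ≤ 16427 + 1 := hB.1
  have a9 := hC.2.1
  have a10 := hC.2.2.1
  have a13 := hC.2.2.2.1
  have a14 := hC.2.2.2.2.1
  have a15 := hC.2.2.2.2.2.1
  have a16 : 4 * ((15083 : ℕ) : ℝ) * ∑ c ∈ Box (44 + 1) 16384, FF c ^ 2 <
    ∑ i : Fin (44 + 1), ∑ c ∈ AA, WW c * UU 16384 FF i c ^ 2 := hE
  have a11 : ∀ c ∈ AA, ∀ c' ∈ AA, rho c + rho c' ≤ 2 * 15403 → Ev 15083 c c' :=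
    fun c _ c' _ h => ev Pool.Agent.Y826.Z.comb2 c c' h
  have key := dhl45L_aux hL 44 15083 16384 16427 15403 1664 (FF (K := 44 + 1)) AA rho 52 mu
    (fun l => 32 * (l : ℕ)) WW
    (by norm_num) (by norm_num) (by norm_num) (by norm_num) (by norm_num) a6 AA_sub a8
    a9 a10 a11 hC.1 a13 a14 a15 a16
  exact key

end Pool.Agent.Y826.ZG
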