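import Mathlib
import Pool.Agent.Y826.ZG.Defs4
import Pool.Agent.Y826.Z.P2
import Pool.Agent.H95R2.BG.LS2

/-! Project Y826/ZG, task P2L (helper574): pair asymptotics over the primes `A i * n + B i` beyond the
level `1/2` (adapted from `Y826/Z/P2` and `H95R2/BG/LS2`). -/

open Finset Filter

namespace Pool.Agent.Y826.ZG

open Pool.Agent.H95R2.BG Pool.Agent.H95R2.BG.LF Pool.Agent.H378R2
open Pool.Agent.Y826.Z (Pr tau GoodT tp)
open Pool.Agent.Y826.ZL (Cd)

namespace P2L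

/-- two copies of the linear forms `c j * n + s j` -/
def app {J : ℕ} (c : Fin J → ℕ) (s : Fin J → ℤ) : Fin (J + J) → ℤ × ℤ :=
  fun j => (((Fin.append c c j : ℕ) : ℤ), Fin.append s s j)

theorem app_left {J : ℕ} (c : Fin J → ℕ) (s : Fin J → ℤ) (j : Fin J) :
    app c s (Fin.castAdd J j) = ((c j : ℤ), s j) := by
  unfold app
  rw [Fin.append_left, Fin.append_left]

theorem app_right {J : ℕ} (c : Fin J → ℕ) (s : Fin J → ℤ) (j : Fin J) :
    app c s (Fin.natAdd J j) = ((c j : ℤ), s j) := by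
  unfold app
  rw [Fin.append_right, Fin.append_right]

/-- the divisibility conditions of a pair, in terms of the tuple of the factors -/
theorem Cd_tq {J : ℕ} (c : Fin J → ℕ) (s : Fin J → ℤ) (d e : Fin J → ℕ)
    (h : ∀ j, Squarefree (Nat.lcm (d j) (e j))) (n : ℕ) :
    Cd (app c s) (Z.P2.tq d e) n ↔ DC (fun j => (c j : ℤ) * n + s j) d e := by
  unfold Cd DC
  constructor
  · intro hh j
    have h1 := hh (Fin.castAdd J j)
    have h2 := hh (Fin.natAdd J j)
    rw [app_left] at h1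
    rw [app_right] at h2
    simp only [Z.P2.tq, Fin.append_left] at h1
    simp only [Z.P2.tq, Fin.append_right] at h2
    exact (Z.P2.lcm_dvd_iff' (h j) _).2 ⟨h1, h2⟩
  · intro hh j
    refine Fin.addCases (fun j => ?_) (fun j => ?_) j
    · rw [app_left]
      simp only [Z.P2.tq, Fin.append_left]
      exact ((Z.P2.lcm_dvd_iff' (h j) _).1 (hh j)).1
    · rw [app_right]
      simp only [Z.P2.tq, Fin.append_right]
      exact ((Z.P2.lcm_dvd_iff' (h j) _).1 (hh j)).2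

/-- the sum over the primes, up to the discrepancies -/
theorem sum2TL {J : ℕ} (X : ℝ) (hX : 0 < X) (W b : ℕ) (hW : 0 < W) (F G : Fin J → ℝ → ℝ)
    (θ L : ℝ) (hLθ : L ≤ θ * Real.log X) (hL : 0 < L) (cF cG : Fin J → ℝ)
    (hcF : ∀ j, 0 ≤ cF j) (hcG : ∀ j, 0 ≤ cG j)
    (hF : ∀ j x, |F j x| ≤ 1) (hG : ∀ j x, |G j x| ≤ 1)
    (hF0 : ∀ j x, cF j < x → F j x = 0) (hG0 : ∀ j x, cG j < x → G j x = 0)
    (E : Fin J → Finset ℕ) (R : ℕ) (c : Fin J → ℕ) (s : Fin J → ℤ)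
    (hEW : ∀ j, ∀ p : ℕ, p.Prime → p ∉ E j → ¬ p ∣ W)
    (hres : ∀ i j, i ≠ j → ∀ p : ℕ, p.Prime → p ∉ E i → p ∉ E j → ∀ n : ℕ,
      ¬ ((p : ℤ) ∣ c i * n + s i ∧ (p : ℤ) ∣ c j * n + s j))
    (bq : (Fin (J + J) → ℕ) → ℕ) (hbq : Cls (app c s) W b bq) :
    |∑ n ∈ Icc 1 ⌊3 * X⌋₊, (if n ≡ b [MOD W] then Phi (n / X) * ArithmeticFunction.vonMangoldt n else 0) *
        ∏ j, (VVm (E j) R L (F j) (c j * n + s j) * VVm (E j) R L (G j) (c j * n + s j)) -
      (LPhi X * (1 / W.totient)) * sieveSum J F G L E (fun p _ => 1 / ((p : ℝ) - 1)) R| ≤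
    ∑ q ∈ (Fintype.piFinset (fun j => Icc 1 ⌊X ^ (θ * (Fin.append cF cG : Fin (J + J) → ℝ) j)⌋₊)).filter
      (fun q => Squarefree (rd W * Pr q)), tau (Pr q) ^ (2 * J) * |EPhi X (W * Pr q) (bq q)| := by
  classical
  refine (expand_le E R L F G ⌊3 * X⌋₊ (fun n => if n ≡ b [MOD W] then Phi (n / X) * ArithmeticFunction.vonMangoldt n else 0)
    (fun n j => c j * n + s j) (LPhi X * (1 / W.totient)) (fun p _ => 1 / ((p : ℝ) - 1))).trans ?_
  refine (support_bound E R L 1 hL zero_le_one F G cF cG hF hG hF0 hG0 _ (fun _ _ => abs_nonneg _)).trans ?_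
  rw [one_pow, one_mul]
  refine Z.P2.fiberT (supp E R L cF) (supp E R L cG) _ PC (fun q => |EPhi X (W * Pr q) (bq q)|)
    (fun _ => abs_nonneg _) ?_ ?_ _ ?_ ?_
  · intro q hq hq0
    have h1 := (Finset.mem_filter.1 hq).2
    rw [hq0, mul_zero] at h1
    exact not_squarefree_zero h1
  · intro d hd e he hPC
    rw [mem_supp] at hd he
    have hd0 : ∀ j, d j ≠ 0 := fun j => by have := (mem_adm.1 (hd j).1).1.1; omega
    have he0 : ∀ j, e j ≠ 0 := fun j => by have := (mem_adm.1 (he j).1).1.1; omega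
    have hDW : ∀ j, (Nat.lcm (d j) (e j)).Coprime W := fun j => adm_lcm_coprime (hd j).1 (he j).1 (hEW j)
    have hDsq : ∀ j, Squarefree (Nat.lcm (d j) (e j)) := fun j =>
      sqf_lcm (mem_adm.1 (hd j).1).2.1 (mem_adm.1 (he j).1).2.1
    rw [Finset.mem_filter]
    constructor
    · rw [Fintype.mem_piFinset]
      intro j
      have hle : ∀ (m : ℕ) (c : ℝ), 0 ≤ c → 0 < m → Real.log m ≤ L * c → (m : ℝ) ≤ X ^ (θ * c) := by
        intro m c hc hm hlog
        have hm0 : (0 : ℝ) < m := by exact_mod_cast hm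
        have h2 : Real.log m ≤ Real.log X * (θ * c) := by
          calc Real.log m ≤ L * c := hlog
            _ ≤ (θ * Real.log X) * c := mul_le_mul_of_nonneg_right hLθ hc
            _ = Real.log X * (θ * c) := by ring
        rw [Real.rpow_def_of_pos hX]
        exact (Real.log_le_iff_le_exp hm0).1 h2
      refine Fin.addCases (fun j => ?_) (fun j => ?_) j
      · simp only [Fin.append_left, Z.P2.tq, Finset.mem_Icc]
        refine ⟨Nat.pos_of_ne_zero (hd0 j), Nat.le_floor ?_⟩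
        exact hle _ _ (hcF j) (Nat.pos_of_ne_zero (hd0 j)) (hd j).2
      · simp only [Fin.append_right, Z.P2.tq, Finset.mem_Icc]
        have hpos : 0 < e j / Nat.gcd (d j) (e j) :=
          Nat.div_pos (Nat.le_of_dvd (Nat.pos_of_ne_zero (he0 j)) (Nat.gcd_dvd_right _ _))
            (Nat.gcd_pos_of_pos_right _ (Nat.pos_of_ne_zero (he0 j)))
        refine ⟨hpos, Nat.le_floor ?_⟩
        have h3 : ((e j / Nat.gcd (d j) (e j) : ℕ) : ℝ) ≤ (e j : ℝ) := by
          exact_mod_cast Nat.div_le_self _ _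
        exact h3.trans (hle _ _ (hcG j) (Nat.pos_of_ne_zero (he0 j)) (he j).2)
    · rw [Z.P2.Pr_tq, sqf_iff hW]
      exact ⟨Nat.Coprime.prod_right fun j _ => (hDW j).symm, squarefree_prod _ hPC hDsq⟩
  · intro d hd e he hPC
    rw [mem_supp] at hd he
    have hDW : ∀ j, (Nat.lcm (d j) (e j)).Coprime W := fun j => adm_lcm_coprime (hd j).1 (he j).1 (hEW j)
    have hDsq : ∀ j, Squarefree (Nat.lcm (d j) (e j)) := fun j =>
      sqf_lcm (mem_adm.1 (hd j).1).2.1 (mem_adm.1 (he j).1).2.1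
    have hsq : Squarefree (rd W * Pr (Z.P2.tq d e)) := by
      rw [Z.P2.Pr_tq, sqf_iff hW]
      exact ⟨Nat.Coprime.prod_right fun j _ => (hDW j).symm, squarefree_prod _ hPC hDsq⟩
    have hb' := hbq (Z.P2.tq d e) hsq
    have e1 : Err ⌊3 * X⌋₊ (fun n => if n ≡ b [MOD W] then Phi (n / X) * ArithmeticFunction.vonMangoldt n else 0)
      (fun n j => c j * n + s j) (LPhi X * (1 / W.totient)) (fun p _ => 1 / ((p : ℝ) - 1)) d e =
        EPhi X (W * Pr (Z.P2.tq d e)) (bq (Z.P2.tq d e)) := by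
      rw [EPhi_eq]
      unfold Err
      rw [if_pos hPC]
      congr 1
      · rw [Finset.sum_filter]
        refine Finset.sum_congr rfl fun n _ => ?_
        by_cases hn : n ≡ bq (Z.P2.tq d e) [MOD (W * Pr (Z.P2.tq d e))]
        · have h3 := (hb' n).1 hn
          have hDC : DC (fun j => (c j : ℤ) * n + s j) d e := (Cd_tq c s d e hDsq n).1 h3.2
          simp only [if_pos hn, if_pos hDC, if_pos h3.1]
        · rw [if_neg hn]
          by_cases hDC : DC (fun j => (c j : ℤ) * n + s j) d e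
          · rw [if_pos hDC]
            have hna : ¬ n ≡ b [MOD W] := fun hna => hn ((hb' n).2 ⟨hna, (Cd_tq c s d e hDsq n).2 hDC⟩)
            simp only [if_neg hna]
          · rw [if_neg hDC]
      · rw [mul_assoc]
        congr 1
        rw [Z.P2.Pr_tq]
        have hcopW : W.Coprime (∏ j, Nat.lcm (d j) (e j)) := Nat.Coprime.prod_right fun j _ => (hDW j).symm
        rw [Nat.totient_mul hcopW, totient_prod _ hPC]
        have : ∀ j : Fin J, ∏ p ∈ (Nat.lcm (d j) (e j)).primeFactors, (1 : ℝ) / ((p : ℝ) - 1) =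
            1 / ((Nat.lcm (d j) (e j)).totient : ℝ) := by
          intro j
          rw [totient_sqf (hDsq j), Finset.prod_div_distrib, Finset.prod_const_one]
        simp_rw [this]
        rw [Finset.prod_div_distrib, Finset.prod_const_one]
        push_cast
        rw [one_div_mul_one_div]
    rw [e1]
  · intro d hd e he hPC
    rw [mem_supp] at hd he
    rw [not_PC_err _ _ _ _ (fun j => (hd j).1) (fun j => (he j).1) _ hPC]
    · norm_num
    · intro i j hij p hp hpi hpj n _ _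
      exact hres i j hij p hp hpi hpj n

/-- the residue classes exist -/
theorem exists_Cls {K : ℕ} (c : Fin K → ℕ) (s : Fin K → ℤ) (W b : ℕ) (hW : 0 < W)
    (hc : ∀ p : ℕ, p.Prime → ¬ p ∣ W → ∀ j, ¬ p ∣ c j) :
    ∃ bq : (Fin K → ℕ) → ℕ, Cls (fun j => ((c j : ℤ), s j)) W b bq := by
  have key : ∀ q : Fin K → ℕ, ∃ r : ℕ, Squarefree (rd W * Pr q) →
      ∀ n : ℕ, (n ≡ r [MOD (W * Pr q)] ↔ n ≡ b [MOD W] ∧ Cd (fun j => ((c j : ℤ), s j)) q n) := by
    intro q
    by_cases hq : Squarefree (rd W * Pr q)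
    · rw [sqf_iff hW] at hq
      have hq0 : ∀ j, q j ≠ 0 := by
        intro j hj
        apply hq.2.ne_zero
        unfold Pr
        exact Finset.prod_eq_zero (Finset.mem_univ j) hj
      have hpc : Pairwise (fun i j => (q i).Coprime (q j)) := by
        intro i j hij
        have h1 : q i * q j ∣ Pr q := by
          unfold Pr
          rw [← Finset.mul_prod_erase _ _ (Finset.mem_univ i)]
          exact Nat.mul_dvd_mul_left _ (Finset.dvd_prod_of_mem _ (Finset.mem_erase.2 ⟨hij.symm, Finset.mem_univ j⟩))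
        exact Nat.coprime_of_squarefree_mul (hq.2.squarefree_of_dvd h1)
      have hqW : ∀ j, (q j).Coprime W := by
        intro j
        have h1 : q j ∣ Pr q := Finset.dvd_prod_of_mem _ (Finset.mem_univ j)
        exact (Nat.Coprime.coprime_dvd_right h1 hq.1).symm
      have hqc : ∀ j, (c j).Coprime (q j) := by
        intro j
        refine Nat.coprime_of_dvd ?_
        intro p hp h1 h2
        refine hc p hp ?_ j h1
        intro h3
        have h4 := Nat.dvd_gcd h2 h3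
        rw [hqW j] at h4
        exact hp.one_lt.ne' (Nat.dvd_one.1 h4)
      obtain ⟨r, hr⟩ := class_exists W b hW.ne' q c s hq0 hpc hqW hqc
      exact ⟨r, fun _ n => (hr n).symm⟩
    · exact ⟨0, fun h => absurd h hq⟩
  choose bq hbq using key
  exact ⟨bq, fun q hq n => hbq q hq n⟩

/-- the divisor bound for the products of the truncated divisor sums -/
theorem prod_bound {K0 : ℕ} (τ : ℝ) (D : ℕ) (F G : Fin K0 → ℝ → ℝ) (hF : ∀ j x, |F j x| ≤ 1)
    (hG : ∀ j x, |G j x| ≤ 1) (α : ℝ) (hα : 1 ≤ α) (c : Fin K0 → ℕ) (hc : ∀ j, 1 ≤ c j) (s : Fin K0 → ℤ) :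
    ∀ᶠ X : ℝ in atTop, ∀ n : ℕ, α * X < n → (n : ℝ) ≤ 4 * (α * X) →
      |∏ j, (vv τ D X (F j) ((c j : ℤ) * n + s j) * vv τ D X (G j) ((c j : ℤ) * n + s j))| ≤
        (α * X) ^ (1 / 4 : ℝ) := by
  classical
  have hK : (0 : ℝ) < (K0 : ℝ) + 1 := by positivity
  set e : ℝ := 1 / (16 * ((K0 : ℝ) + 1)) with he
  have he0 : 0 < e := by positivity
  obtain ⟨C, hC0, hC⟩ := Pool.Agent.Helper112.divisor_bound e he0
  set M : ℝ := 4 * ((∑ j, c j : ℕ) : ℝ) + 1 with hM
  have hM0 : 0 < M := by positivity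
  have hsc : Tendsto (fun X : ℝ => α * X) atTop atTop := tendsto_id.const_mul_atTop (by linarith)
  have ev1 : ∀ᶠ X : ℝ in atTop, (((∑ j, |s j| : ℤ) : ℝ)) + 1 ≤ α * X := hsc.eventually_ge_atTop _
  have ev2 : ∀ᶠ X : ℝ in atTop, C * M ^ e ≤ (α * X) ^ e :=
    ((tendsto_rpow_atTop he0).comp hsc).eventually_ge_atTop _
  have ev3 : ∀ᶠ X : ℝ in atTop, 1 ≤ α * X := hsc.eventually_ge_atTop _
  filter_upwards [ev1, ev2, ev3] with X hX1 hX2 hX0 n hn hn4
  set Y : ℝ := α * X with hY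
  have hY0 : 0 < Y := by linarith
  have hv : ∀ (f : ℝ → ℝ), (∀ x, |f x| ≤ 1) → ∀ j, |vv τ D X f ((c j : ℤ) * n + s j)| ≤ Y ^ (2 * e) := by
    intro f hf j
    have h1 : ((|s j| : ℤ) : ℝ) ≤ ((∑ j, |s j| : ℤ) : ℝ) := by
      exact_mod_cast Finset.single_le_sum (f := fun j => |s j|) (fun i _ => abs_nonneg _) (Finset.mem_univ j)
    rw [Int.cast_abs] at h1
    have h2 := abs_le.1 (h1.trans (by linarith : ((∑ j, |s j| : ℤ) : ℝ) ≤ Y - 1))
    have hcj : (1 : ℝ) ≤ c j := by exact_mod_cast hc j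
    have hcj2 : (c j : ℝ) ≤ ((∑ j, c j : ℕ) : ℝ) := by
      exact_mod_cast Finset.single_le_sum (f := fun j => c j) (fun i _ => Nat.zero_le _) (Finset.mem_univ j)
    have hn0 : (0 : ℝ) < n := by linarith
    have hcn : (n : ℝ) ≤ c j * n := by nlinarith
    have hpos : 0 < (c j : ℤ) * n + s j := by
      have : (0 : ℝ) < (((c j : ℤ) * n + s j : ℤ) : ℝ) := by push_cast; linarith [h2.1]
      exact_mod_cast this
    obtain ⟨m, hm⟩ := Int.eq_ofNat_of_zero_le hpos.le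
    have hm1 : 1 ≤ m := by omega
    have hmr : (m : ℝ) = (c j : ℝ) * n + (s j : ℝ) := by
      have : (((c j : ℤ) * n + s j : ℤ) : ℝ) = ((m : ℤ) : ℝ) := by rw [hm]
      push_cast at this
      exact this.symm
    refine (X1_vv_le τ D X f hf m hm1 _ hm).trans ((hC m hm1).trans ?_)
    have h5 : (m : ℝ) ≤ M * Y := by
      have h6 : (c j : ℝ) * n ≤ ((∑ j, c j : ℕ) : ℝ) * (4 * Y) :=
        mul_le_mul hcj2 hn4 hn0.le (Nat.cast_nonneg _)
      rw [hmr, hM]
      linarith [h2.2]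
    calc C * (m : ℝ) ^ e ≤ C * (M * Y) ^ e := by
          apply mul_le_mul_of_nonneg_left _ hC0.le
          exact Real.rpow_le_rpow (Nat.cast_nonneg _) h5 he0.le
      _ = (C * M ^ e) * Y ^ e := by rw [Real.mul_rpow hM0.le hY0.le]; ring
      _ ≤ Y ^ e * Y ^ e := mul_le_mul_of_nonneg_right hX2 (by positivity)
      _ = Y ^ (2 * e) := by rw [← Real.rpow_add hY0]; congr 1; ring
  rw [Finset.abs_prod]
  have h1 : ∀ j, |vv τ D X (F j) ((c j : ℤ) * n + s j) * vv τ D X (G j) ((c j : ℤ) * n + s j)| ≤ Y ^ (4 * e) := by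
    intro j
    rw [abs_mul]
    calc _ ≤ Y ^ (2 * e) * Y ^ (2 * e) := mul_le_mul (hv _ (hF j) j) (hv _ (hG j) j) (abs_nonneg _) (by positivity)
      _ = Y ^ (4 * e) := by rw [← Real.rpow_add hY0]; congr 1; ring
  calc ∏ j, |vv τ D X (F j) ((c j : ℤ) * n + s j) * vv τ D X (G j) ((c j : ℤ) * n + s j)|
      ≤ ∏ _j : Fin K0, Y ^ (4 * e) := Finset.prod_le_prod (fun _ _ => abs_nonneg _) fun j _ => h1 j
    _ = Y ^ (4 * e * K0) := by
        rw [Finset.prod_const, Finset.card_univ, Fintype.card_fin, ← Real.rpow_natCast, ← Real.rpow_mul hY0.le]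
    _ ≤ Y ^ (1 / 4 : ℝ) := by
        apply Real.rpow_le_rpow_of_exponent_le hX0
        rw [he]
        have : 4 * (1 / (16 * ((K0 : ℝ) + 1))) * K0 = (1 / 4) * (K0 / (K0 + 1)) := by field_simp; ring
        rw [this]
        have h2 : (K0 : ℝ) / (K0 + 1) ≤ 1 := by rw [div_le_one hK]; linarith
        linarith

end P2L

/-- the case of total length beyond `2` -/
theorem p2l_beyond (hZ : S_ZZ) {K0 : ℕ} (τ : ℝ) (hτ : 0 < τ) (hτ' : τ < 1 / 8) (F G : Fin K0 → ℝ → ℝ)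
    (cF cG : Fin K0 → ℝ)
    (hF : ∀ j, GF (F j) (cF j)) (hG : ∀ j, GF (G j) (cG j)) (hsum : ∑ j, cF j + ∑ j, cG j ≤ 54 / 25)
    (hT : ∃ δ : ℝ, 0 < δ ∧ GoodT δ (tp cF cG))
    (ε : ℝ) (hε : 0 < ε) :
    ∃ D0 : ℕ, ∀ D : ℕ, D0 ≤ D → ∀ A B : Fin (K0 + 1) → ℕ, SepL D A B → ∀ (i : Fin (K0 + 1)) (a : ℕ),
      (A i * a + B i).Coprime (WD D) → ∀ᶠ X : ℝ in atTop,
      |∑ n ∈ Icc 1 ⌊3 * X⌋₊, nu X (WD D) a n * th (A i * n + B i) *
          ∏ j : Fin K0, (vv τ D X (F j) ((rem A i j : ℤ) * n + rem B i j) *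
            vv τ D X (G j) ((rem A i j : ℤ) * n + rem B i j)) -
        NN τ D X (K0 + 1) * Real.log X * ((1 / 4 - τ) * ∏ j, DD (F j) (G j))| ≤
      ε * (NN τ D X (K0 + 1) * Real.log X) := by
  obtain ⟨δ, hδ, hS⟩ := sieve_asymp K0 F G (fun j => (hF j).smooth) (fun j => (hG j).smooth)
    (fun j => (hF j).compact) (fun j => (hG j).compact) (ε / 8) (by positivity)
  refine ⟨⌈1 / δ⌉₊, fun D hD A B hsep i a hcop => ?_⟩
  set P := ∏ j, DD (F j) (G j) with hP
  obtain ⟨α, hαdef⟩ : ∃ α : ℕ, α = A i := ⟨_, rfl⟩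
  obtain ⟨β, hβdef⟩ : ∃ β : ℕ, β = B i := ⟨_, rfl⟩
  rw [← hαdef, ← hβdef] at hcop ⊢
  have hα1 : 1 ≤ α := by rw [hαdef]; exact hsep.2.1 i
  have hαr : (1 : ℝ) ≤ α := by exact_mod_cast hα1
  have hα0 : (0 : ℝ) < α := by linarith
  have hαp : ∀ p : ℕ, p.Prime → D < p → ¬ p ∣ α := by rw [hαdef]; exact hsep.2.2 i
  have hαW : ∀ p : ℕ, p.Prime → p ∣ α → p ∣ WD D := by
    intro p hp hpα
    rw [prime_dvd_WD hp]
    apply mem_PD' hp
    by_contra hc
    push Not at hc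
    exact hαp p hp hc hpα
  have hτ4 : τ < 1 / 4 := by linarith
  have hLt := Lt_tendsto hτ4
  have hsc : Tendsto (fun X : ℝ => (α : ℝ) * X) atTop atTop := tendsto_id.const_mul_atTop hα0
  have hnot : ∀ p : ℕ, p.Prime → p ∉ PD D → D < p := by
    intro p hp hpE
    by_contra hc
    push Not at hc
    exact hpE (mem_PD' hp hc)
  have hW'pos : 0 < α * WD D := Nat.mul_pos hα1 (WD_pos D)
  have hcop' : (α * a + β).Coprime (α * WD D) := by
    apply Nat.Coprime.mul_right _ hcop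
    rw [Nat.coprime_iff_gcd_eq_one]
    by_contra h
    obtain ⟨p, hp, hpd⟩ := Nat.exists_prime_and_dvd h
    have g1 : p ∣ α * a + β := hpd.trans (Nat.gcd_dvd_left _ _)
    have g2 : p ∣ α := hpd.trans (Nat.gcd_dvd_right _ _)
    exact hp.one_lt.ne' (Nat.dvd_one.1 (hcop ▸ Nat.dvd_gcd g1 (hαW p hp g2)))
  have hpW' : ∀ p : ℕ, p.Prime → ¬ p ∣ α * WD D → D < p := fun p hp hpW =>
    hnot p hp (fun hmem => hpW (((prime_dvd_WD hp).2 hmem).mul_left α))
  -- the data for the equidistribution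
  obtain ⟨c, hcdef⟩ : ∃ c : Fin K0 → ℕ, c = rem A i := ⟨_, rfl⟩
  obtain ⟨s, hsdef⟩ : ∃ s : Fin K0 → ℤ, s = fun j => (α : ℤ) * rem B i j - (rem A i j : ℤ) * β := ⟨_, rfl⟩
  have hcp : ∀ j, ∀ p : ℕ, p.Prime → D < p → ¬ p ∣ c j := by
    intro j p hp hpD
    rw [hcdef]
    exact hsep.2.2 _ p hp hpD
  have hsp : ∀ j, ∀ p : ℕ, p.Prime → D < p → ¬ (p : ℤ) ∣ s j := by
    intro j p hp hpD
    rw [hsdef]
    simp only
    rw [hαdef, hβdef]
    exact hsep.1 _ _ (Fin.succAbove_ne i j).symm p hp hpD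
  have hHyp : Hyp (P2L.app c s) (α * WD D) (α * a + β) := by
    refine ⟨hW'pos, hcop', ?_, ?_⟩
    · intro p hp hpW j
      have hpD := hpW' p hp hpW
      refine Fin.addCases (fun j => ?_) (fun j => ?_) j
      · rw [P2L.app_left]
        exact fun h => hcp j p hp hpD (Int.natCast_dvd_natCast.1 h)
      · rw [P2L.app_right]
        exact fun h => hcp j p hp hpD (Int.natCast_dvd_natCast.1 h)
    · intro p hp hpW j
      have hpD := hpW' p hp hpW
      refine Fin.addCases (fun j => ?_) (fun j => ?_) j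
      · rw [P2L.app_left]
        exact hsp j p hp hpD
      · rw [P2L.app_right]
        exact hsp j p hp hpD
  obtain ⟨bq, hbq⟩ := P2L.exists_Cls (Fin.append c c) (Fin.append s s) (α * WD D) (α * a + β) hW'pos (by
    intro p hp hpW j
    have hpD := hpW' p hp hpW
    refine Fin.addCases (fun j => ?_) (fun j => ?_) j
    · rw [Fin.append_left]; exact hcp j p hp hpD
    · rw [Fin.append_right]; exact hcp j p hp hpD)
  replace hbq : Cls (P2L.app c s) (α * WD D) (α * a + β) bq := hbq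
  set t : Fin (K0 + K0) → ℝ := fun j => (1 / 4 - τ) * (Fin.append cF cG : Fin (K0 + K0) → ℝ) j with ht
  have hc0 : ∀ j, 0 ≤ (Fin.append cF cG : Fin (K0 + K0) → ℝ) j := by
    intro j
    refine Fin.addCases (fun j => ?_) (fun j => ?_) j
    · rw [Fin.append_left]; exact (hF j).nonneg
    · rw [Fin.append_right]; exact (hG j).nonneg
  have ht0 : ∀ j, 0 ≤ t j := fun j => mul_nonneg (by linarith) (hc0 j)
  have htp : ∀ j, tp cF cG j = (Fin.append cF cG : Fin (K0 + K0) → ℝ) j / 4 := by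
    intro j
    unfold tp
    refine Fin.addCases (fun j => ?_) (fun j => ?_) j
    · rw [Fin.append_left, Fin.append_left]
    · rw [Fin.append_right, Fin.append_right]
  have ht1 : ∀ j, t j ≤ tp cF cG j := by
    intro j
    rw [htp j]
    have := hc0 j
    simp only [ht]
    nlinarith
  have htsum : ∑ j, t j ≤ 27 / 50 := by
    have h1 : ∑ j, t j ≤ ∑ j, tp cF cG j := Finset.sum_le_sum fun j _ => ht1 j
    have h2 : ∑ j, tp cF cG j = (∑ j, cF j + ∑ j, cG j) / 4 := by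
      rw [Fin.sum_univ_add]
      unfold tp
      simp only [Fin.append_left, Fin.append_right]
      rw [← Finset.sum_div, ← Finset.sum_div]
      ring
    linarith
  have hGT : ∃ δ : ℝ, 0 < δ ∧ GoodT δ t := by
    obtain ⟨δ', h1, h2⟩ := hT
    exact ⟨δ', h1, Z.P2.GoodT_mono h2 ht1⟩
  have e5 := hsc.eventually (hZ (K0 + K0) (P2L.app c s) (α * WD D) (α * a + β) hHyp t ht0 htsum hGT bq hbq
    (K0 + 1) (2 * K0))
  have e7 := P2L.prod_bound τ D F G (fun j => (hF j).bdd) (fun j => (hG j).bdd) (α : ℝ) hαr c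
    (fun j => by rw [hcdef]; exact hsep.2.1 _) s
  have e1 : ∀ᶠ X : ℝ in atTop, ∑ p ∈ PD D, Real.log p / p ≤ (Lt τ X) ^ (1 / 4 : ℝ) :=
    ((tendsto_rpow_atTop (by norm_num)).comp hLt).eventually_ge_atTop _
  have e2 : ∀ᶠ X : ℝ in atTop, ∑ p ∈ PD D, (1 : ℝ) / p ≤ Real.log (Lt τ X) / 32 :=
    ((Real.tendsto_log_atTop.comp hLt).atTop_div_const (by norm_num)).eventually_ge_atTop _
  have e3 := S2.err1 hτ hτ' D K0 (ε / (4 * α)) (by positivity)
  have e4 := hsc.eventually (S2.err2 (by norm_num : (0 : ℝ) < 1 / 8) K0 β)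
  have hPP : 0 < 160 * (|P| + 1) := by positivity
  obtain ⟨η, hηdef⟩ : ∃ η : ℝ, η = min (1 / 40) (ε / (160 * (|P| + 1))) := ⟨_, rfl⟩
  have hη0 : 0 < η := by rw [hηdef]; positivity
  have e6 := hsc.eventually (Pool.Agent.H510R2.Maier.lphi_mphi η hη0)
  filter_upwards [e1, e2, e3, e4, e5, e6, hLt.eventually_ge_atTop 1, hLt.eventually_ge_atTop (1 / δ),
    eventually_ge_atTop 40, eventually_ge_atTop (2 * (β : ℝ)), eventually_ge_atTop (5 / η), e7] with
    X h1 h2 h3 h4 h5' h6 h7 h8 hX hX2 hX5 h9'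
  have hX0 : 0 < X := by linarith
  have hXα : X ≤ α * X := by nlinarith
  have hXα0 : 0 < α * X := by linarith
  have hW : (0 : ℝ) < WD D := by exact_mod_cast WD_pos D
  have hφ : (0 : ℝ) < ((WD D).totient : ℝ) := by exact_mod_cast Nat.totient_pos.2 (WD_pos D)
  have hB := BE_PD_pos D
  have hL : 0 < Lt τ X := by linarith
  have hMge := MPhi_ge X hX
  have hM : 0 < MPhi X := by linarith
  have hlog : 0 < Real.log X := Real.log_pos (by linarith)
  have hlogα : Real.log X ≤ Real.log (α * X) := Real.log_le_log hX0 hXα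
  have hLtα : Lt τ X ≤ (1 / 4 - τ) * Real.log (α * X) := by
    unfold Lt
    exact mul_le_mul_of_nonneg_left hlogα (by linarith)
  -- step 1: shift
  set Pf : ℕ → ℝ := fun n => ∏ j : Fin K0, (VVm (PD D) (Rt τ X) (Lt τ X) (F j) ((c j : ℤ) * n + s j) *
    VVm (PD D) (Rt τ X) (Lt τ X) (G j) ((c j : ℤ) * n + s j)) with hPf
  have s1 := Z.P2.shift_local (α * X) (by linarith) (α * WD D) (α * a) β (by linarith) Pf
    ((α * X) ^ (1 / 4 : ℝ)) (by positivity) (fun n hn hn4 => h9' n hn hn4)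
  have hx14 : Real.exp (2 * Lt (1 / 8) (α * X)) = (α * X) ^ (1 / 4 : ℝ) := by
    rw [S2.exp_two_Lt (1 / 8) (α * X) hXα0]; norm_num
  rw [hx14] at h4
  have s1' : ∑ n ∈ Icc 1 ⌊3 * X⌋₊, nu X (WD D) a n * th (α * n + β) *
          ∏ j : Fin K0, (vv τ D X (F j) ((rem A i j : ℤ) * n + rem B i j) *
            vv τ D X (G j) ((rem A i j : ℤ) * n + rem B i j)) =
      ∑ n ∈ Icc 1 ⌊3 * (α * X)⌋₊, nu (α * X) (α * WD D) (α * a) n * th (n + β) * Pf (n + β) := by
    have hr := LS2.reindex X α (WD D) a hα1 (fun n => th (n + β) * Pf (n + β))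
    have hr2 : ∑ n ∈ Icc 1 ⌊3 * ((α : ℝ) * X)⌋₊, nu (α * X) (α * WD D) (α * a) n *
        (th (n + β) * Pf (n + β)) = ∑ n ∈ Icc 1 ⌊3 * (α * X)⌋₊, nu (α * X) (α * WD D) (α * a) n *
          th (n + β) * Pf (n + β) := Finset.sum_congr rfl fun n _ => by ring
    rw [← hr2, hr]
    refine Finset.sum_congr rfl fun n _ => ?_
    rw [mul_assoc]
    congr 2
    rw [hPf]
    refine Finset.prod_congr rfl fun j _ => ?_
    have : (c j : ℤ) * ((α * n + β : ℕ) : ℤ) + s j = α * ((rem A i j : ℤ) * n + rem B i j) := by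
      rw [hcdef, hsdef]
      push_cast; ring
    rw [this, LS2.VVm_mul D _ _ _ α hαp, LS2.VVm_mul D _ _ _ α hαp]
    rfl
  -- step 2: sieve
  have s2 := P2L.sum2TL (α * X) hXα0 (α * WD D) (α * a + β) hW'pos F G (1 / 4 - τ) (Lt τ X) hLtα hL cF cG
    (fun j => (hF j).nonneg) (fun j => (hG j).nonneg)
    (fun j => (hF j).bdd) (fun j => (hG j).bdd) (fun j => (hF j).zero) (fun j => (hG j).zero)
    (fun _ => PD D) (Rt τ X) c s
    (fun _ p hp hpD hdvd => by
      rcases (Nat.Prime.dvd_mul hp).1 hdvd with h9 | h9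
      · exact hαp p hp (hnot p hp hpD) h9
      · exact hpD ((prime_dvd_WD hp).1 h9))
    (by
      intro j k hjk p hp hpE _ n hh
      rw [hcdef, hsdef] at hh
      have hne : i.succAbove j ≠ i.succAbove k := fun h => hjk (Fin.succAbove_right_injective h)
      have hpD := hnot p hp hpE
      have h9 := dvd_sub (Dvd.dvd.mul_left hh.1 (rem A i k : ℤ)) (Dvd.dvd.mul_left hh.2 (rem A i j : ℤ))
      have h10 : (rem A i k : ℤ) * ((rem A i j : ℤ) * n + ((α : ℤ) * rem B i j - (rem A i j : ℤ) * β)) -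
          (rem A i j : ℤ) * ((rem A i k : ℤ) * n + ((α : ℤ) * rem B i k - (rem A i k : ℤ) * β)) =
          (α : ℤ) * ((A (i.succAbove k) : ℤ) * B (i.succAbove j) -
            (A (i.succAbove j) : ℤ) * B (i.succAbove k)) := by
        unfold rem; ring
      rw [h10] at h9
      rcases (Nat.prime_iff_prime_int.1 hp).dvd_or_dvd h9 with h11 | h11
      · exact hαp p hp hpD (Int.natCast_dvd_natCast.1 h11)
      · exact hsep.1 _ _ hne.symm p hp hpD h11)
    bq hbq
  have s3 : ∑ n ∈ Icc 1 ⌊3 * (α * X)⌋₊, (if n ≡ α * a + β [MOD α * WD D] then Phi (n / (α * X)) *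
      ArithmeticFunction.vonMangoldt n else 0) * Pf n =
      ∑ n ∈ Icc 1 ⌊3 * (α * X)⌋₊, (if n ≡ α * a + β [MOD α * WD D] then Phi (n / (α * X)) *
        ArithmeticFunction.vonMangoldt n else 0) *
        ∏ j : Fin K0, (VVm (PD D) (Rt τ X) (Lt τ X) (F j) (c j * n + s j) *
          VVm (PD D) (Rt τ X) (Lt τ X) (G j) (c j * n + s j)) := rfl
  rw [← s3] at s2
  have s4 : ∑ q ∈ (Fintype.piFinset (fun j => Icc 1 ⌊(α * X) ^ ((1 / 4 - τ) *
        (Fin.append cF cG : Fin (K0 + K0) → ℝ) j)⌋₊)).filter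
      (fun q => Squarefree (rd (α * WD D) * Pr q)), tau (Pr q) ^ (2 * K0) * |EPhi (α * X) (α * WD D * Pr q) (bq q)| ≤
      (α * X) / (Real.log (α * X)) ^ (K0 + 1) := by
    refine le_trans (le_of_eq ?_) h5'
    refine Finset.sum_congr ?_ fun q _ => rfl
    ext q
    simp only [Finset.mem_filter, ht]
  have s4' : (α * X) / (Real.log (α * X)) ^ (K0 + 1) ≤ α * (X / (Real.log X) ^ (K0 + 1)) := by
    rw [← mul_div_assoc]
    apply div_le_div_of_nonneg_left hXα0.le (by positivity)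
    exact pow_le_pow_left₀ hlog.le hlogα _
  -- step 3: asymptotics
  have s5 := hS (Lt τ X) (fun _ => PD D) (fun p _ => 1 / ((p : ℝ) - 1)) (Rt τ X) h8
    (by
      intro j x hx
      have h7 : 2 < x := lt_of_le_of_lt (Rt_ge h7) hx
      exact ⟨(hF j).zero x (lt_of_le_of_lt (hF j).le_two h7),
        (hG j).zero x (lt_of_le_of_lt (hG j).le_two h7)⟩)
    (fun _ p hp => (mem_PD.1 hp).2)
    (by
      intro _ p hp hpl
      apply mem_PD' hp
      have : (p : ℝ) ≤ ⌈1 / δ⌉₊ := hpl.trans (Nat.le_ceil (1 / δ))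
      have : p ≤ ⌈1 / δ⌉₊ := by exact_mod_cast this
      omega)
    (fun _ => h1) (fun _ => h2) (fun _ p hp _ => w_two hp)
  have k3 : ∏ j : Fin K0, (Lt τ X * ∏ p ∈ PD D, (1 - 1 / (p : ℝ))) = (Lt τ X * BE (PD D)) ^ K0 := by
    rw [Finset.prod_const, Finset.card_univ, Fintype.card_fin]
    rfl
  rw [k3] at s5
  set SS := sieveSum K0 F G (Lt τ X) (fun _ => PD D) (fun p _ => 1 / ((p : ℝ) - 1)) (Rt τ X) with hSS
  have s5' : |(Lt τ X * BE (PD D)) ^ K0 * SS - P| ≤ ε / 8 := s5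
  set Q : ℝ := (1 / ((WD D).totient : ℝ)) * (1 / (Lt τ X * BE (PD D)) ^ K0) with hQ
  have hQ0 : 0 < Q := by positivity
  obtain ⟨Λ, hΛdef⟩ : ∃ Λ : ℝ, Λ = LPhi (α * X) / α := ⟨_, rfl⟩
  have hLP0 : 0 ≤ Λ := by
    rw [hΛdef]
    apply div_nonneg _ hα0.le
    unfold LPhi
    exact Finset.sum_nonneg fun n _ => mul_nonneg (Phi_nonneg _) ArithmeticFunction.vonMangoldt_nonneg
  have hLW : LPhi (α * X) * (1 / ((α * WD D).totient : ℝ)) = Λ * (1 / ((WD D).totient : ℝ)) := by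
    rw [LS2.totient_mul' α (WD D) hα1 (WD_pos D) hαW, hΛdef]
    push_cast
    field_simp
  rw [hLW] at s2
  have s6 : |(Λ * (1 / ((WD D).totient : ℝ))) * SS - Λ * Q * P| ≤ Λ * Q * (ε / 8) := by
    have : (Λ * (1 / ((WD D).totient : ℝ))) * SS - Λ * Q * P =
      Λ * Q * ((Lt τ X * BE (PD D)) ^ K0 * SS - P) := by
      rw [hQ]
      have : (Lt τ X * BE (PD D)) ^ K0 ≠ 0 := by positivity
      field_simp
    rw [this, abs_mul, abs_of_nonneg (by positivity)]
    exact mul_le_mul_of_nonneg_left s5' (by positivity)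
  -- step 4: `LPhi` and `MPhi`
  have h6' : |Λ - MPhi X| ≤ 2 * η * X := by
    have g1 := LS2.MPhi_scale' α hα1 X (by linarith)
    have g2 : Λ - MPhi X = ((LPhi (α * X) - MPhi (α * X)) + (MPhi (α * X) - α * MPhi X)) / α := by
      rw [hΛdef]; field_simp; ring
    rw [g2, abs_div, abs_of_pos hα0, div_le_iff₀ hα0]
    have g3 : 5 ≤ η * X := by
      rw [div_le_iff₀ hη0] at hX5
      linarith
    have g4 : 5 * (α : ℝ) ≤ η * X * α := mul_le_mul_of_nonneg_right g3 hα0.le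
    calc |(LPhi (α * X) - MPhi (α * X)) + (MPhi (α * X) - α * MPhi X)|
        ≤ |LPhi (α * X) - MPhi (α * X)| + |MPhi (α * X) - α * MPhi X| := abs_add_le _ _
      _ ≤ η * (α * X) + 5 * α := add_le_add h6 g1
      _ ≤ 2 * η * X * α := by linarith
  have hη1 : 2 * η ≤ 1 / 20 := by
    have := min_le_left (1 / 40 : ℝ) (ε / (160 * (|P| + 1)))
    rw [← hηdef] at this
    linarith
  have hη2 : 2 * η ≤ ε / (80 * (|P| + 1)) := by
    have := min_le_right (1 / 40 : ℝ) (ε / (160 * (|P| + 1)))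
    rw [← hηdef] at this
    have g5 : ε / (80 * (|P| + 1)) = 2 * (ε / (160 * (|P| + 1))) := by
      field_simp
      norm_num
    rw [g5]
    linarith
  have h6a : |Λ - MPhi X| ≤ 1 / 20 * X := h6'.trans (mul_le_mul_of_nonneg_right hη1 hX0.le)
  have h6b : |Λ - MPhi X| ≤ ε / (80 * (|P| + 1)) * X :=
    h6'.trans (mul_le_mul_of_nonneg_right hη2 hX0.le)
  have hLP2 : Λ ≤ 2 * MPhi X := by
    have := (abs_le.1 h6a).2
    linarith
  have s7 : |Λ * Q * P - MPhi X * Q * P| ≤ ε / 4 * (MPhi X * Q) := by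
    have e : Λ * Q * P - MPhi X * Q * P = (Λ - MPhi X) * (Q * P) := by ring
    rw [e, abs_mul, abs_mul, abs_of_pos hQ0]
    have h9 : |Λ - MPhi X| * |P| ≤ ε / 4 * MPhi X := by
      calc |Λ - MPhi X| * |P| ≤ ε / (80 * (|P| + 1)) * X * |P| :=
            mul_le_mul_of_nonneg_right h6b (abs_nonneg _)
        _ = ε / 80 * X * (|P| / (|P| + 1)) := by field_simp
        _ ≤ ε / 80 * X * 1 := by
            apply mul_le_mul_of_nonneg_left _ (by positivity)
            rw [div_le_one (by positivity)]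
            linarith
        _ ≤ ε / 4 * MPhi X := by nlinarith
    calc |Λ - MPhi X| * (Q * |P|) = (|Λ - MPhi X| * |P|) * Q := by ring
      _ ≤ ε / 4 * MPhi X * Q := mul_le_mul_of_nonneg_right h9 hQ0.le
      _ = _ := by ring
  -- step 5: the normalisation
  have hL0 : Lt τ X = (1 / 4 - τ) * Real.log X := rfl
  have hNN : NN τ D X (K0 + 1) * Real.log X * (1 / 4 - τ) = MPhi X * Q := by
    have h9 : NN τ D X (K0 + 1) * Real.log X * (1 / 4 - τ) = NN τ D X (K0 + 1) * Lt τ X := by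
      rw [hL0]; ring
    rw [h9, hQ, totient_WD]
    unfold NN
    rw [one_div_pow, pow_succ]
    field_simp
  have hNN' : MPhi X * Q ≤ NN τ D X (K0 + 1) * Real.log X := by
    rw [← hNN]
    have h9 : 0 ≤ NN τ D X (K0 + 1) * Real.log X := by
      unfold NN
      positivity
    nlinarith
  have s8 : MPhi X * Q * P = NN τ D X (K0 + 1) * Real.log X * ((1 / 4 - τ) * P) := by
    rw [← hNN]; ring
  have s9 : Λ * Q * (ε / 8) ≤ ε / 4 * (MPhi X * Q) := by
    have : Λ * (Q * ε) ≤ 2 * MPhi X * (Q * ε) := mul_le_mul_of_nonneg_right hLP2 (by positivity)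
    linarith
  have h3' : α * (X / (Real.log X) ^ (K0 + 1)) ≤ ε / 4 * (MPhi X * Q) := by
    calc α * (X / (Real.log X) ^ (K0 + 1)) ≤ α * (ε / (4 * α) * (MPhi X * Q)) :=
          mul_le_mul_of_nonneg_left h3 hα0.le
      _ = ε / 4 * (MPhi X * Q) := by field_simp
  have hfin : ε * (MPhi X * Q) ≤ ε * (NN τ D X (K0 + 1) * Real.log X) :=
    mul_le_mul_of_nonneg_left hNN' hε.le
  rw [s1', ← s8]
  have t1 := abs_le.1 s1
  have t2 := abs_le.1 s2
  have t6 := abs_le.1 s6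
  have t7 := abs_le.1 s7
  rw [abs_le]
  constructor <;> linarith [t1.1, t1.2, t2.1, t2.2, t6.1, t6.2, t7.1, t7.2, s4, s4', h3', h4, s9, hfin]

/-- P2L: pair asymptotics for linear forms beyond the level `1/2` -/
theorem p2l (hZ : Pool.Agent.Y826.ZG.S_ZZ) : S_P2L := by
  intro K0 τ hτ hτ' F G cF cG hF hG hor ε hε
  rcases hor with h2 | ⟨h2, h3⟩
  · exact S2pairL τ hτ hτ' F G cF cG hF hG h2 ε hε
  · exact p2l_beyond hZ τ hτ hτ' F G cF cG hF hG h2 h3 ε hε

end Pool.Agent.Y826.ZG
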