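import Mathlib
import Pool.Agent.Y826.ZC.Final
import Pool.Agent.Y826.ZG.Dhl
import Pool.Agent.Y826.ZG.Main
import Pool.Agent.Y826.ZG.P2L
import Pool.Agent.Y826.ZG.CritL
import Pool.Agent.Y826.ZG.LayL

/-! Project Y826/ZG: `DHL[45,2]` for linear forms, with a count, unconditionally. -/

open Finset Filter

namespace Pool.Agent.Y826.ZG

theorem s_layl : S_LAYL := layl (critl (p2l s_zz))

/-- two of the 45 numbers `A i * n + B i` are prime, often -/
theorem dhl45L : Dhl45L :=
  dhl45L_of s_layl Pool.Agent.Y826.ZC.kb Pool.Agent.Y93.ZC.kc Pool.Agent.Y826.ZC.s_ke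

end Pool.Agent.Y826.ZG
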